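import Pool.Agent.H941.SC.Bertini

set_option autoImplicit false
set_option linter.unusedSectionVars false
set_option linter.unusedVariables false

/-! # Good coordinates for a reduced curve and finitely many points on it -/

namespace Pool.Agent.H941.NC

open MvPolynomial Pool.Agent.Helper748.MC Pool.Agent.H941.SC

theorem cross_ne {P P' : Fin 3 → ℂ} (hP' : P' ≠ 0) (h : ∀ c : ℂ, P ≠ c • P') :
    P 1 * P' 2 - P 2 * P' 1 ≠ 0 ∨ P 2 * P' 0 - P 0 * P' 2 ≠ 0 ∨ P 0 * P' 1 - P 1 * P' 0 ≠ 0 := by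
  by_contra hcon
  push Not at hcon
  obtain ⟨h0, h1, h2⟩ := hcon
  obtain ⟨i, hi⟩ : ∃ i, P' i ≠ 0 := by
    by_contra hc
    push Not at hc
    exact hP' (_root_.funext hc)
  refine h (P i / P' i) ?_
  funext j
  rw [Pi.smul_apply, smul_eq_mul, div_mul_eq_mul_div, eq_div_iff hi]
  fin_cases i <;> fin_cases j <;> simp at * <;> first
    | linear_combination h0
    | linear_combination h1
    | linear_combination h2
    | linear_combination -h0
    | linear_combination -h1
    | linear_combination -h2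

/-- the linear form `X ↦ det (X, P, P')` -/
noncomputable def dl (P P' : Fin 3 → ℂ) : MvPolynomial (Fin 3) ℂ :=
  C (P 1 * P' 2 - P 2 * P' 1) * X 0 + C (P 2 * P' 0 - P 0 * P' 2) * X 1 +
    C (P 0 * P' 1 - P 1 * P' 0) * X 2

theorem eval_dl (P P' q : Fin 3 → ℂ) : eval q (dl P P') =
    (P 1 * P' 2 - P 2 * P' 1) * q 0 + (P 2 * P' 0 - P 0 * P' 2) * q 1 +
    (P 0 * P' 1 - P 1 * P' 0) * q 2 := by
  simp [dl]

theorem dl_ne {P P' : Fin 3 → ℂ} (hP' : P' ≠ 0) (h : ∀ c : ℂ, P ≠ c • P') : dl P P' ≠ 0 := by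
  intro h0
  have e : ∀ q, eval q (dl P P') = 0 := fun q => by rw [h0, map_zero]
  rcases cross_ne hP' h with h1 | h1 | h1
  · exact h1 (by simpa [eval_dl] using e ![1, 0, 0])
  · exact h1 (by simpa [eval_dl] using e ![0, 1, 0])
  · exact h1 (by simpa [eval_dl] using e ![0, 0, 1])

/-- **Good coordinates** for a reduced curve and finitely many points on it. -/
theorem bertini' {N : ℕ} {S : MvPolynomial (Fin 3) ℂ} (hS : S.IsHomogeneous N) (hN : 0 < N)
    (hsq : Squarefree S) {ι : Type} [Fintype ι] (P : ι → Fin 3 → ℂ) (hP : ∀ i, P i ≠ 0)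
    (hPS : ∀ i, eval (P i) S = 0) : ∃ (A : Matrix (Fin 3) (Fin 3) ℂ) (P' : ι → Fin 3 → ℂ),
      A.det ≠ 0 ∧
      (aeval ![(1 : Polynomial ℂ), 0, Polynomial.X] (lin A S)).Separable ∧
      (aeval ![(1 : Polynomial ℂ), 0, Polynomial.X] (lin A S)).natDegree = N ∧
      (∀ i, (fun k => ∑ l, A k l * P' i l) = P i) ∧ (∀ i, P' i 1 ≠ 0) ∧
      ∀ i j, (∀ c : ℂ, P i ≠ c • P j) → P' i 0 / P' i 1 ≠ P' j 0 / P' j 1 := by
  classical
  have hS0 : S ≠ 0 := hsq.ne_zero
  set L : MvPolynomial (Fin 3) ℂ := ∏ i, ∏ j,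
    (if ∀ c : ℂ, P i ≠ c • P j then dl (P i) (P j) else 1) with hL
  have hL0 : L ≠ 0 := by
    rw [hL]
    refine Finset.prod_ne_zero_iff.2 fun i _ => Finset.prod_ne_zero_iff.2 fun j _ => ?_
    split_ifs with h
    · exact dl_ne (hP j) h
    · exact one_ne_zero
  obtain ⟨q, hq⟩ := exists_eval_ne (mul_ne_zero (mul_ne_zero hS0 (X_ne_zero (R := ℂ) (0 : Fin 3)))
    hL0)
  rw [map_mul, map_mul, eval_X] at hq
  have hqL := right_ne_zero_of_mul hq
  have hqS := left_ne_zero_of_mul (left_ne_zero_of_mul hq)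
  have hq0 := right_ne_zero_of_mul (left_ne_zero_of_mul hq)
  have hqd : ∀ i j, (∀ c : ℂ, P i ≠ c • P j) → eval q (dl (P i) (P j)) ≠ 0 := by
    intro i j hij h0
    apply hqL
    rw [hL, map_prod]
    refine Finset.prod_eq_zero (Finset.mem_univ i) ?_
    rw [map_prod]
    refine Finset.prod_eq_zero (Finset.mem_univ j) ?_
    rw [if_pos hij, h0]
  set A : Matrix (Fin 3) (Fin 3) ℂ := !![q 0, 0, 0; q 1, 1, 0; q 2, 0, 1] with hA
  have hAd : A.det ≠ 0 := by
    rw [hA, Matrix.det_fin_three]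
    simp
    exact hq0
  set S' := lin A S with hS'
  have hS'h : S'.IsHomogeneous N := lin_homog A hS
  have hS'sq : Squarefree S' := squarefree_lin hAd hsq
  have hS'e : eval ![1, 0, 0] S' = eval q S := by
    rw [hS', eval_lin]
    congr 1
    congr 1
    funext i
    rw [Fin.sum_univ_three, hA]
    fin_cases i <;> simp
  set c := eval ![1, 0, 0] S' with hc
  have hc0 : c ≠ 0 := by rw [hS'e]; exact hqS
  obtain ⟨Td, Tc⟩ := coeff_fin hS'h
  rw [← hc] at Tc
  set T := finSuccEquiv ℂ 2 S' with hT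
  have hTsq : Squarefree T := squarefree_ringEquiv (finSuccEquiv ℂ 2).toRingEquiv hS'sq
  have hCc : (C c⁻¹ : MvPolynomial (Fin 2) ℂ) * C c = 1 := by
    rw [← C_mul, inv_mul_cancel₀ hc0, C_1]
  set T' : Polynomial (MvPolynomial (Fin 2) ℂ) := Polynomial.C (C c⁻¹) * T with hT'
  have hT'c : T'.coeff N = 1 := by rw [hT', Polynomial.coeff_C_mul, Tc, hCc]
  have hT'd : T'.natDegree = N := by
    refine le_antisymm ((Polynomial.natDegree_C_mul_le _ _).trans Td)
      (Polynomial.le_natDegree_of_ne_zero ?_)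
    rw [hT'c]
    exact one_ne_zero
  have hT'm : T'.Monic := by rw [Polynomial.Monic, Polynomial.leadingCoeff, hT'd, hT'c]
  have hu : IsUnit (Polynomial.C (C c⁻¹ : MvPolynomial (Fin 2) ℂ)) :=
    Polynomial.isUnit_C.2 ((inv_ne_zero hc0).isUnit.map C)
  have hT'sq : Squarefree T' := by
    refine (Associated.squarefree_iff ?_).1 hTsq
    exact ⟨hu.unit, by rw [mul_comm]; rfl⟩
  obtain ⟨D, α, β, hD, hαβ⟩ := res_frac hT'm hT'sq (by omega)
  -- the points in the first coordinates
  set p0 : ι → ℂ := fun i => P i 0 / q 0 with hp0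
  set p1 : ι → ℂ := fun i => P i 1 - q 1 * p0 i with hp1
  set p2 : ι → ℂ := fun i => P i 2 - q 2 * p0 i with hp2
  have hp12 : ∀ i, p1 i ≠ 0 ∨ p2 i ≠ 0 := by
    intro i
    by_contra hcon
    push Not at hcon
    obtain ⟨h1, h2⟩ := hcon
    have h3 : P i = fun k => p0 i * q k := by
      funext k
      fin_cases k
      · change P i 0 = P i 0 / q 0 * q 0
        field_simp
      · change P i 1 = p0 i * q 1
        linear_combination h1
      · change P i 2 = p0 i * q 2
        linear_combination h2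
    have h4 := hPS i
    rw [h3] at h4
    have h5 : eval (fun k => p0 i * q k) S = p0 i ^ N * eval q S := by
      rw [eval_eq', eval_eq', Finset.mul_sum]
      refine Finset.sum_congr rfl fun d hd => ?_
      have h1 := hS (mem_support_iff.1 hd)
      rw [Finsupp.weight_apply, Finsupp.sum_fintype _ _ (by intro; simp)] at h1
      simp only [Pi.one_apply, smul_eq_mul, mul_one] at h1
      simp only [mul_pow]
      rw [Finset.prod_mul_distrib, Finset.prod_pow_eq_pow_sum, h1]
      ring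
    rw [h5] at h4
    have h6 := (pow_eq_zero_iff hN.ne').1 ((mul_eq_zero.1 h4).resolve_right hqS)
    apply hP i
    rw [h3, h6]
    funext k
    simp
  set M : MvPolynomial (Fin 2) ℂ := ∏ i, (C (p2 i) * X 0 - C (p1 i) * X 1) with hM
  have hMe : ∀ (x : Fin 2 → ℂ) i, eval x (C (p2 i) * X 0 - C (p1 i) * X 1 : MvPolynomial (Fin 2) ℂ)
      = p2 i * x 0 - p1 i * x 1 := by
    intro x i
    simp
  have hM0 : M ≠ 0 := by
    rw [hM]
    refine Finset.prod_ne_zero_iff.2 fun i _ => ?_
    intro h0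
    have e : ∀ x : Fin 2 → ℂ, p2 i * x 0 - p1 i * x 1 = 0 := fun x => by
      rw [← hMe, h0, map_zero]
    rcases hp12 i with h | h
    · exact h (by simpa using e ![0, 1])
    · exact h (by simpa using e ![1, 0])
  obtain ⟨x, hx⟩ := exists_eval_ne (mul_ne_zero (mul_ne_zero hD
    (X_ne_zero (R := ℂ) (0 : Fin 2))) hM0)
  rw [map_mul, map_mul, eval_X] at hx
  have hxM := right_ne_zero_of_mul hx
  have hxD := left_ne_zero_of_mul (left_ne_zero_of_mul hx)
  have hx0 := right_ne_zero_of_mul (left_ne_zero_of_mul hx)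
  have hxMi : ∀ i, p2 i * x 0 - p1 i * x 1 ≠ 0 := by
    intro i h0
    apply hxM
    rw [hM, map_prod]
    exact Finset.prod_eq_zero (Finset.mem_univ i) (by rw [hMe, h0])
  have hxx : x = ![x 0, x 1] := by
    funext i
    fin_cases i <;> rfl
  have hsep : (T'.map (eval x)).Separable := by
    have h1 := congrArg (Polynomial.map (eval x)) hαβ
    have g1 : (α * T').map (eval x) = α.map (eval x) * T'.map (eval x) := Polynomial.map_mul _
    have g2 : (β * Polynomial.derivative T').map (eval x) =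
        β.map (eval x) * Polynomial.derivative (T'.map (eval x)) := by
      rw [Polynomial.map_mul, ← Polynomial.derivative_map]
    rw [Polynomial.map_C, Polynomial.map_add, g1, g2] at h1
    refine ⟨Polynomial.C (eval x D)⁻¹ * α.map (eval x), Polynomial.C (eval x D)⁻¹ * β.map (eval x),
      ?_⟩
    have h2 : Polynomial.C (eval x D)⁻¹ * Polynomial.C (eval x D) = 1 := by
      rw [← Polynomial.C_mul, inv_mul_cancel₀ hxD, Polynomial.C_1]
    linear_combination (-Polynomial.C (eval x D)⁻¹) * h1 + h2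
  have hmap : T'.map (eval x) = Polynomial.C c⁻¹ *
      aeval ![Polynomial.X, Polynomial.C (x 0), Polynomial.C (x 1)] S' := by
    rw [hT', Polynomial.map_mul, Polynomial.map_C, eval_C, hT, hxx, map_fin]
    rfl
  set R := aeval ![Polynomial.X, Polynomial.C (x 0), Polynomial.C (x 1)] S' with hR
  have hRT : R = Polynomial.C c * T'.map (eval x) := by
    rw [hmap, ← mul_assoc, ← Polynomial.C_mul, mul_inv_cancel₀ hc0, Polynomial.C_1, one_mul]
  have hRs : R.Separable := by
    rw [hRT]
    exact hsep.unit_mul (Polynomial.isUnit_C.2 hc0.isUnit)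
  have hRd : R.natDegree = N := by
    rw [hRT, Polynomial.natDegree_C_mul hc0, hT'm.natDegree_map, hT'd]
  have h3 : (fun i => ∑ j, Polynomial.C ((!![0, 0, 1; x 0, 0, 0; x 1, 1, 0] :
        Matrix (Fin 3) (Fin 3) ℂ) i j) * (![(1 : Polynomial ℂ), 0, Polynomial.X] : _) j) =
        ![Polynomial.X, Polynomial.C (x 0), Polynomial.C (x 1)] := by
    funext i
    rw [Fin.sum_univ_three]
    fin_cases i <;> simp
  refine ⟨A * !![0, 0, 1; x 0, 0, 0; x 1, 1, 0],
    fun i => ![p1 i / x 0, p2 i - x 1 * (p1 i / x 0), p0 i], ?_, ?_, ?_, ?_, ?_, ?_⟩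
  · rw [Matrix.det_mul]
    refine mul_ne_zero hAd ?_
    rw [Matrix.det_fin_three]
    simp
    exact hx0
  · rw [← lin_lin, ← hS', aeval_lin, h3, ← hR]
    exact hRs
  · rw [← lin_lin, ← hS', aeval_lin, h3, ← hR]
    exact hRd
  · intro i
    funext k
    rw [Fin.sum_univ_three, hA]
    fin_cases k
    · simp [Matrix.mul_apply, Fin.sum_univ_three]
      change q 0 * (P i 0 / q 0) = _
      field_simp
    · simp [Matrix.mul_apply, Fin.sum_univ_three]
      change x 0 * (p1 i / x 0) + q 1 * p0 i = P i 1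
      rw [mul_div_cancel₀ _ hx0]
      change P i 1 - q 1 * p0 i + q 1 * p0 i = P i 1
      ring
    · simp [Matrix.mul_apply, Fin.sum_univ_three]
      change P i 2 - q 2 * p0 i + q 2 * p0 i = P i 2
      ring
  · intro i
    change p2 i - x 1 * (p1 i / x 0) ≠ 0
    intro h
    apply hxMi i
    field_simp at h
    linear_combination h
  · intro i j hij h
    have hi := hxMi i
    have hj := hxMi j
    change p1 i / x 0 / (p2 i - x 1 * (p1 i / x 0)) = p1 j / x 0 / (p2 j - x 1 * (p1 j / x 0)) at h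
    have e1 : ∀ k, p1 k / x 0 / (p2 k - x 1 * (p1 k / x 0)) = p1 k / (p2 k * x 0 - p1 k * x 1) := by
      intro k
      have hk := hxMi k
      have h1 : p2 k - x 1 * (p1 k / x 0) ≠ 0 := by
        intro h
        apply hk
        field_simp at h
        linear_combination h
      rw [div_div, div_eq_div_iff (mul_ne_zero hx0 h1) hk]
      field_simp
    rw [e1, e1, div_eq_div_iff hi hj] at h
    have h4 : x 0 * (p1 i * p2 j - p1 j * p2 i) = 0 := by linear_combination h
    have h5 := (mul_eq_zero.1 h4).resolve_left hx0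
    apply hqd i j hij
    rw [eval_dl]
    have f0 : ∀ k, P k 0 = p0 k * q 0 := fun k => by
      change P k 0 = P k 0 / q 0 * q 0
      field_simp
    have f1 : ∀ k, P k 1 = p1 k + q 1 * p0 k := fun k => by
      change P k 1 = P k 1 - q 1 * p0 k + q 1 * p0 k
      ring
    have f2 : ∀ k, P k 2 = p2 k + q 2 * p0 k := fun k => by
      change P k 2 = P k 2 - q 2 * p0 k + q 2 * p0 k
      ring
    rw [f0, f0, f1, f1, f2, f2]
    linear_combination q 0 * h5

end Pool.Agent.H941.NC
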