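import Pool.Agent.H941.NC.Core
import Pool.Agent.H941.NC.Bert
import Pool.Agent.H941.SC.Class

set_option autoImplicit false
set_option linter.unusedSectionVars false
set_option linter.unusedVariables false

/-! # Curves with a normal crossing part: the class -/

namespace Pool.Agent.H941.NC

open MvPolynomial Pool.Agent.Helper748.MC Pool.Agent.Helper748.TP Pool.Agent.H941.TF
  Pool.Agent.H941.SC Pool.Agent.W574.SM Pool.Agent.W574.CN Pool.Agent.W574.MO
  Pool.Agent.W574.HS Pool.Agent.W574.LM Pool.Agent.H628R4.TP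

/-- **Forms whose curve contains a curve with simple normal crossings of degree at least four, to
which the other components are attached in many points.**

The curve `f = 0` is the union of the curves `h i = 0` and `g j = 0` (the form
`S = ∏ h i * ∏ g j` is squarefree, `S ∣ f` and `f ∣ S ^ k`; the multiplicities of `f` are
arbitrary). The curves `h i = 0` are smooth, any two of them are transversal, and no three of them
have a common point; the sum of their degrees is at least `4`. The `g j` are irreducible, and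
`g j = 0` has at least `3 deg (g j) + 1` different points `P j b` on the union of the curves
`h i = 0` and `g l = 0`, `l < j`. There is no condition on the singularities of the curves
`g j = 0`, and none on the intersections. -/
def CrossChain (f : MvPolynomial (Fin 3) ℂ) : Prop :=
  ∃ (a r k : ℕ) (e : Fin a → ℕ) (n : Fin r → ℕ) (h : Fin a → MvPolynomial (Fin 3) ℂ)
    (g : Fin r → MvPolynomial (Fin 3) ℂ) (P : (j : Fin r) → Fin (3 * n j + 1) → Fin 3 → ℂ),
    (∀ i, (h i).IsHomogeneous (e i)) ∧ (∀ j, (g j).IsHomogeneous (n j)) ∧ 4 ≤ ∑ i, e i ∧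
    (∀ j, Irreducible (g j)) ∧ Squarefree ((∏ i, h i) * ∏ j, g j) ∧
    (∏ i, h i) * ∏ j, g j ∣ f ∧ f ∣ ((∏ i, h i) * ∏ j, g j) ^ k ∧
    (∀ i, ∀ z : Fin 3 → ℂ, z ≠ 0 → eval z (h i) = 0 → ∃ l, eval z (pderiv l (h i)) ≠ 0) ∧
    (∀ i j, i ≠ j → ∀ z : Fin 3 → ℂ, z ≠ 0 → eval z (h i) = 0 → eval z (h j) = 0 → ∀ c : ℂ,
      ∃ l, eval z (pderiv l (h j)) ≠ c * eval z (pderiv l (h i))) ∧
    (∀ i j l, i ≠ j → l ≠ i → l ≠ j → ∀ z : Fin 3 → ℂ, z ≠ 0 → eval z (h i) = 0 →
      eval z (h j) = 0 → eval z (h l) ≠ 0) ∧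
    (∀ j b, P j b ≠ 0 ∧ eval (P j b) (g j) = 0 ∧
      eval (P j b) ((∏ i, h i) * ∏ l ∈ Finset.univ.filter (· < j), g l) = 0) ∧
    (∀ j b b', b ≠ b' → ∀ c : ℂ, P j b ≠ c • P j b')

theorem CrossChain.ne {f : MvPolynomial (Fin 3) ℂ} (hf : CrossChain f) : f ≠ 0 := by
  obtain ⟨a, r, k, e, n, h, g, P, hh, hg, he, hirr, hsq, hSf, hfS, -⟩ := hf
  rintro rfl
  exact pow_ne_zero k hsq.ne_zero (zero_dvd_iff.1 hfS)

theorem CrossChain.deg {d : ℕ} {f : MvPolynomial (Fin 3) ℂ} (hf : f.IsHomogeneous d)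
    (h : CrossChain f) : 0 < d := by
  have hf0 := h.ne
  obtain ⟨a, r, k, e, n, h, g, P, hh, hg, he, hirr, hsq, hSf, hfS, -⟩ := h
  have h1 := totalDegree_le_of_dvd_of_isDomain hSf hf0
  have hS : ((∏ i, h i) * ∏ j, g j).IsHomogeneous (∑ i, e i + ∑ j, n j) :=
    (IsHomogeneous.prod _ _ _ fun i _ => hh i).mul (IsHomogeneous.prod _ _ _ fun j _ => hg j)
  rw [hS.totalDegree hsq.ne_zero, hf.totalDegree hf0] at h1
  omega

theorem irr_lin {A : Matrix (Fin 3) (Fin 3) ℂ} (hA : A.det ≠ 0) {p : MvPolynomial (Fin 3) ℂ}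
    (hp : Irreducible p) : Irreducible (lin A p) :=
  (MulEquiv.irreducible_iff (linE A hA)).2 hp

/-- These forms are not exact. -/
theorem not_exact {d : ℕ} {f : MvPolynomial (Fin 3) ℂ} (hf : f.IsHomogeneous d)
    (h : CrossChain f) : ¬ Exact d f (-3 / d) := by
  classical
  have hd := h.deg hf
  obtain ⟨a, r, k, e, n, h, g, P, hh, hg, he, hirr, hsq, hSf, hfS, hsm, htr, htwo, hP, hPP⟩ := h
  have hS : ((∏ i, h i) * ∏ j, g j).IsHomogeneous (∑ i, e i + ∑ j, n j) :=
    (IsHomogeneous.prod _ _ _ fun i _ => hh i).mul (IsHomogeneous.prod _ _ _ fun j _ => hg j)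
  obtain ⟨A, P', hA, hsep, hdeg, hAP, hP1, hPt⟩ := bertini' hS (by omega) hsq
    (ι := Σ j : Fin r, Fin (3 * n j + 1)) (fun x => P x.1 x.2) (fun x => (hP x.1 x.2).1)
    (fun x => by
      rw [map_mul, map_prod (eval _) g, Finset.prod_eq_zero (Finset.mem_univ x.1)
        (hP x.1 x.2).2.1, mul_zero])
  intro hE
  rw [map_mul, map_prod, map_prod] at hsep hdeg
  -- the points in the new coordinates
  have hlin : ∀ (j : Fin r) (b : Fin (3 * n j + 1)) (p : MvPolynomial (Fin 3) ℂ) (m : ℕ),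
      p.IsHomogeneous m → eval (P j b) p = 0 →
      eval ![P' ⟨j, b⟩ 0 / P' ⟨j, b⟩ 1, 1, P' ⟨j, b⟩ 2 / P' ⟨j, b⟩ 1] (lin A p) = 0 := by
    intro j b p m hp h0
    have h1 : eval (P' ⟨j, b⟩) (lin A p) = 0 := by
      rw [eval_lin, hAP ⟨j, b⟩]
      exact h0
    have h2 := hP1 ⟨j, b⟩
    have h3 : P' ⟨j, b⟩ = fun i => P' ⟨j, b⟩ 1 *
        (![P' ⟨j, b⟩ 0 / P' ⟨j, b⟩ 1, 1, P' ⟨j, b⟩ 2 / P' ⟨j, b⟩ 1] : Fin 3 → ℂ) i := by
      funext i
      fin_cases i
      · simp [mul_div_cancel₀ _ h2]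
      · simp
      · simp [mul_div_cancel₀ _ h2]
    rw [h3, eval_smul_pt (lin_homog A hp)] at h1
    exact (mul_eq_zero.1 h1).resolve_left (pow_ne_zero _ h2)
  refine core (F := lin A f) (h := fun i => lin A (h i)) (g := fun j => lin A (g j)) (K := k)
    (ee := e) (nn := n) (lin_homog A hf) hd (fun i => lin_homog A (hh i))
    (fun j => lin_homog A (hg j)) he ?_ ?_ ?_ (fun i => smooth_lin hA (hsm i))
    (fun i j hij => trans_lin hA (htr i j hij)) ?_ hsep hdeg
    (fun j => Finset.univ.image fun b => P' ⟨j, b⟩ 0 / P' ⟨j, b⟩ 1) ?_ ?_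
    (exact_lin hE A (isUnit_iff_ne_zero.2 hA))
  · exact fun j => irr_lin hA (hirr j)
  · rw [← map_prod, ← map_prod, ← map_mul]
    exact map_dvd (lin A) hSf
  · rw [← map_prod, ← map_prod, ← map_mul, ← map_pow]
    exact map_dvd (lin A) hfS
  · intro i j l hij hli hlj z hz h1 h2
    rw [eval_lin] at h1 h2 ⊢
    exact htwo i j l hij hli hlj _ (lin_vec_ne hA hz) h1 h2
  · intro j
    rw [Finset.card_image_of_injective, Finset.card_univ, Fintype.card_fin]
    · omega
    · intro b b' hbb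
      by_contra hne
      exact hPt ⟨j, b⟩ ⟨j, b'⟩ (hPP j b b' hne) hbb
  · intro j t ht
    rw [Finset.mem_image] at ht
    obtain ⟨b, -, rfl⟩ := ht
    refine ⟨P' ⟨j, b⟩ 2 / P' ⟨j, b⟩ 1, hlin j b _ _ (hg j) (hP j b).2.1, ?_⟩
    have h1 := hlin j b _ _ ((IsHomogeneous.prod Finset.univ _ _ fun i _ => hh i).mul
      (IsHomogeneous.prod (Finset.univ.filter (· < j)) _ _ fun j _ => hg j)) (hP j b).2.2
    rwa [map_mul, map_prod, map_prod] at h1

end Pool.Agent.H941.NC
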