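import Pool.Agent.H941.SC.Core
import Pool.Agent.H941.SC.Curve

set_option autoImplicit false
set_option linter.unusedSectionVars false
set_option linter.unusedVariables false

/-! # Irreducible components -/

namespace Pool.Agent.H941.NC

section
open Polynomial Pool.Agent.Helper748.TP Pool.Agent.H941.TF Pool.Agent.H941.SC

theorem irr_dvd' {K : Type} [Field K] [Algebra ℂ[X] K] [IsFractionRing ℂ[X] K] {Γ F : ℂ[X][X]}
    (hm : Γ.Monic) (hi : Irreducible Γ) {B : Finset ℂ}
    (h : ∀ t ∉ B, ∃ x, ev2 Γ t x = 0 ∧ ev2 F t x = 0) : Γ ∣ F := by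
  classical
  by_contra hcon
  have hinj : Function.Injective (algebraMap ℂ[X] K) := IsFractionRing.injective _ _
  have h1 : Irreducible (Γ.map (algebraMap ℂ[X] K)) :=
    (hm.irreducible_iff_irreducible_map_fraction_map).1 hi
  have h2 : IsCoprime (Γ.map (algebraMap ℂ[X] K)) (F.map (algebraMap ℂ[X] K)) := by
    rw [h1.coprime_iff_not_dvd, Polynomial.map_dvd_map _ hinj hm]
    exact hcon
  have h3 := resultant_ne_zero _ _ h2
  rw [natDegree_map_eq_of_injective hinj, natDegree_map_eq_of_injective hinj,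
    resultant_map_map] at h3
  have hN : Γ.natDegree ≠ 0 := by
    intro h0
    rw [hm.natDegree_eq_zero.1 h0] at hi
    exact hi.not_isUnit isUnit_one
  obtain ⟨α, β, _, _, h4⟩ := Polynomial.exists_mul_add_mul_eq_C_resultant (m := Γ.natDegree)
    (n := F.natDegree) Γ F le_rfl le_rfl (Or.inl hN)
  set R := resultant Γ F Γ.natDegree F.natDegree with hR
  have hR0 : R ≠ 0 := by
    intro h0
    rw [h0, map_zero] at h3
    exact h3 rfl
  obtain ⟨t, ht⟩ := Infinite.exists_notMem_finset (B ∪ R.roots.toFinset)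
  rw [Finset.mem_union, not_or, Multiset.mem_toFinset, mem_roots hR0] at ht
  obtain ⟨x, hx1, hx2⟩ := h t ht.1
  have h5 := congrArg (fun P => ev2 P t x) h4
  beta_reduce at h5
  rw [ev2_add, ev2_mul, ev2_mul, hx1, hx2, zero_mul, zero_mul, add_zero, ev2_C] at h5
  exact ht.2 h5.symm

/-- an irreducible polynomial with infinitely many common roots -/
theorem irr_dvd {Γ F : ℂ[X][X]} (hm : Γ.Monic) (hi : Irreducible Γ) {B : Finset ℂ}
    (h : ∀ t ∉ B, ∃ x, ev2 Γ t x = 0 ∧ ev2 F t x = 0) : Γ ∣ F :=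
  irr_dvd' (K := FractionRing ℂ[X]) hm hi h

theorem TD_ex (A : ℂ[X][X]) : ∃ k : ℕ, TD k A := by
  set s := ∑ i ∈ Finset.range (A.natDegree + 1), (A.coeff i).natDegree with hs
  refine ⟨A.natDegree + s, ?_⟩
  intro i j hij
  rcases lt_or_ge A.natDegree i with h | h
  · rw [coeff_eq_zero_of_natDegree_lt h, coeff_zero]
  · refine coeff_eq_zero_of_natDegree_lt ?_
    have h1 := Finset.single_le_sum (f := fun i => (A.coeff i).natDegree)
      (fun i _ => Nat.zero_le _) (Finset.mem_range.2 (Nat.lt_succ_of_le h))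
    beta_reduce at h1
    rw [← hs] at h1
    clear_value s
    omega

end

section
open MvPolynomial Pool.Agent.Helper748.MC Pool.Agent.Helper748.TP Pool.Agent.H941.TF
  Pool.Agent.H941.SC

/-- the form of degree `k` with given affine part -/
noncomputable def hom (k : ℕ) (A : Polynomial (Polynomial ℂ)) : MvPolynomial (Fin 3) ℂ :=
  ∑ i ∈ Finset.range (k + 1), ∑ j ∈ Finset.range (k + 1 - i),
    C ((A.coeff i).coeff j) * (X 0 ^ j * X 1 ^ (k - i - j) * X 2 ^ i)

theorem hom_homog (k : ℕ) (A : Polynomial (Polynomial ℂ)) : (hom k A).IsHomogeneous k := by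
  refine IsHomogeneous.sum _ _ _ fun i hi => IsHomogeneous.sum _ _ _ fun j hj => ?_
  rw [Finset.mem_range] at hi hj
  have h1 := (((isHomogeneous_X_pow (R := ℂ) (0 : Fin 3) j).mul
    (isHomogeneous_X_pow (R := ℂ) (1 : Fin 3) (k - i - j))).mul
    (isHomogeneous_X_pow (R := ℂ) (2 : Fin 3) i))
  rw [show j + (k - i - j) + i = k by omega] at h1
  have h2 := (isHomogeneous_C (Fin 3) ((A.coeff i).coeff j)).mul h1
  rwa [zero_add] at h2

theorem ch_hom {k : ℕ} {A : Polynomial (Polynomial ℂ)} (hA : TD k A) : ch (hom k A) = A := by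
  have hX0 : ch (X 0) = Polynomial.C Polynomial.X := by simp [ch]
  have hX1 : ch (X 1) = 1 := by simp [ch]
  have hX2 : ch (X 2) = Polynomial.X := by simp [ch]
  have h1 : ch (hom k A) = ∑ i ∈ Finset.range (k + 1), ∑ j ∈ Finset.range (k + 1 - i),
      Polynomial.C (Polynomial.C ((A.coeff i).coeff j) * Polynomial.X ^ j) *
        Polynomial.X ^ i := by
    rw [hom, map_sum]
    refine Finset.sum_congr rfl fun i _ => ?_
    rw [map_sum]
    refine Finset.sum_congr rfl fun j _ => ?_
    rw [map_mul, map_mul, map_mul, map_pow, map_pow, map_pow, hX0, hX1, hX2, one_pow, mul_one,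
      ch_C, kc, Polynomial.C_mul, Polynomial.C_pow]
    ring
  rw [h1]
  have h2 : A.natDegree < k + 1 := Nat.lt_succ_of_le hA.natDegree
  conv_rhs => rw [Polynomial.as_sum_range_C_mul_X_pow' (p := A) h2]
  refine Finset.sum_congr rfl fun i hi => ?_
  rw [← Finset.sum_mul, ← map_sum]
  congr 2
  have h3 : (A.coeff i).natDegree < k + 1 - i := by
    rw [Finset.mem_range] at hi
    rcases Nat.eq_zero_or_pos (A.coeff i).natDegree with h0 | h0
    · omega
    · by_contra hcon
      have h4 := hA i (A.coeff i).natDegree (by omega)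
      rw [Polynomial.coeff_natDegree, Polynomial.leadingCoeff_eq_zero] at h4
      rw [h4, Polynomial.natDegree_zero] at h0
      exact lt_irrefl 0 h0
  conv_rhs => rw [Polynomial.as_sum_range_C_mul_X_pow' (p := A.coeff i) h3]

theorem ch_inj {n : ℕ} {F G : MvPolynomial (Fin 3) ℂ} (hF : F.IsHomogeneous n)
    (hG : G.IsHomogeneous n) (h : ch F = ch G) : F = G := by
  have h1 : X 1 * (F - G) = 0 := by
    refine MvPolynomial.funext fun z => ?_
    rw [map_mul, eval_X, map_zero]
    by_cases hz : z 1 = 0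
    · rw [hz, zero_mul]
    · have h2 : z = z 1 • ![z 0 / z 1, 1, z 2 / z 1] := by
        funext i
        fin_cases i
        · simp [mul_div_cancel₀ _ hz]
        · simp
        · simp [mul_div_cancel₀ _ hz]
      have h3 : eval ![z 0 / z 1, 1, z 2 / z 1] (F - G) = 0 := by
        rw [map_sub, ← ev_ch, ← ev_ch, h, sub_self]
      have h4 : eval z (F - G) = z 1 ^ n * eval ![z 0 / z 1, 1, z 2 / z 1] (F - G) := by
        conv_lhs => rw [h2]
        exact eval_smul_pt (hF.sub hG) _ _
      rw [h4, h3, mul_zero, mul_zero]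
  exact sub_eq_zero.1 ((mul_eq_zero.1 h1).resolve_left (X_ne_zero 1))

/-- the affine part of an irreducible form -/
theorem irr_ch {n : ℕ} {g : MvPolynomial (Fin 3) ℂ} (hg : g.IsHomogeneous n) (hi : Irreducible g)
    (hu : ¬ IsUnit (ch g)) : Irreducible (ch g) := by
  refine ⟨hu, fun A B hAB => ?_⟩
  obtain ⟨k, hk⟩ := TD_ex A
  obtain ⟨l, hl⟩ := TD_ex B
  have hX1 : ch (X 1) = 1 := by simp [ch]
  have h1 : g * X 1 ^ (k + l) = hom k A * hom l B * X 1 ^ n := by
    refine ch_inj (n := n + (k + l)) (hg.mul (isHomogeneous_X_pow 1 _)) ?_ ?_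
    · have h2 := ((hom_homog k A).mul (hom_homog l B)).mul (isHomogeneous_X_pow (R := ℂ)
        (1 : Fin 3) n)
      rwa [add_comm] at h2
    · rw [map_mul, map_mul, map_mul, ch_hom hk, ch_hom hl, map_pow, map_pow, hX1, one_pow,
        one_pow, mul_one, mul_one, hAB]
  have hp := hi.prime
  have hg0 : ch g ≠ 0 := by
    intro h
    apply hi.ne_zero
    refine ch_inj hg (isHomogeneous_zero _ _ _) ?_
    rw [h, map_zero]
  rw [hAB] at hg0
  have h2 : g ∣ hom k A * hom l B * X 1 ^ n := ⟨_, h1.symm⟩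
  rcases hp.dvd_or_dvd h2 with h3 | h3
  · rcases hp.dvd_or_dvd h3 with h4 | h4
    · right
      obtain ⟨w, hw⟩ := h4
      have h5 := congrArg ch hw
      rw [map_mul, ch_hom hk, hAB] at h5
      refine IsUnit.of_mul_eq_one (ch w) ?_
      refine mul_left_cancel₀ (left_ne_zero_of_mul hg0) ?_
      linear_combination -h5
    · left
      obtain ⟨w, hw⟩ := h4
      have h5 := congrArg ch hw
      rw [map_mul, ch_hom hl, hAB] at h5
      refine IsUnit.of_mul_eq_one (ch w) ?_
      refine mul_left_cancel₀ (right_ne_zero_of_mul hg0) ?_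
      linear_combination -h5
  · exfalso
    obtain ⟨w, hw⟩ := hp.dvd_of_dvd_pow h3
    have h5 := congrArg ch hw
    rw [hX1, map_mul] at h5
    exact hu (IsUnit.of_mul_eq_one (ch w) h5.symm)

end

end Pool.Agent.H941.NC
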