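import Pool.Agent.H941.NC.Top
import Pool.Agent.H941.NC.Irr

set_option autoImplicit false
set_option linter.unusedSectionVars false
set_option linter.unusedVariables false

/-! # Forms, in coordinates -/

namespace Pool.Agent.H941.NC

open MvPolynomial Pool.Agent.Helper748.MC Pool.Agent.Helper748.TP Pool.Agent.H941.TF
  Pool.Agent.H941.SC

theorem pt_ne (t x : ℂ) : (![t, 1, x] : Fin 3 → ℂ) ≠ 0 := fun h => one_ne_zero (congrFun h 1)

theorem sm_aff {e : ℕ} {H : MvPolynomial (Fin 3) ℂ} (hH : H.IsHomogeneous e)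
    (hsm : ∀ z : Fin 3 → ℂ, z ≠ 0 → eval z H = 0 → ∃ i, eval z (pderiv i H) ≠ 0) (t x : ℂ)
    (a1 : eval ![t, 1, x] H = 0) (a2 : eval ![t, 1, x] (pderiv 0 H) = 0) :
    eval ![t, 1, x] (pderiv 2 H) ≠ 0 := by
  intro a3
  have a4 := euler hH t x a1
  rw [a2, a3, mul_zero, mul_zero, zero_add, add_zero] at a4
  obtain ⟨i, hi⟩ := hsm _ (pt_ne t x) a1
  fin_cases i
  · exact hi a2
  · exact hi a4
  · exact hi a3

theorem tr_aff {e n : ℕ} {H G : MvPolynomial (Fin 3) ℂ} (hH : H.IsHomogeneous e)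
    (hG : G.IsHomogeneous n)
    (hsm : ∀ z : Fin 3 → ℂ, z ≠ 0 → eval z H = 0 → ∃ i, eval z (pderiv i H) ≠ 0)
    (htr : ∀ z : Fin 3 → ℂ, z ≠ 0 → eval z H = 0 → eval z G = 0 → ∀ c : ℂ,
      ∃ i, eval z (pderiv i G) ≠ c * eval z (pderiv i H)) (t x : ℂ)
    (b1 : eval ![t, 1, x] H = 0) (b2 : eval ![t, 1, x] G = 0) :
    eval ![t, 1, x] (pderiv 0 H) * eval ![t, 1, x] (pderiv 2 G) -
      eval ![t, 1, x] (pderiv 2 H) * eval ![t, 1, x] (pderiv 0 G) ≠ 0 := by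
  intro b3
  have b4 := euler hH t x b1
  have b5 := euler hG t x b2
  obtain ⟨c, c1, c2⟩ : ∃ c : ℂ, eval ![t, 1, x] (pderiv 0 G) =
      c * eval ![t, 1, x] (pderiv 0 H) ∧ eval ![t, 1, x] (pderiv 2 G) =
      c * eval ![t, 1, x] (pderiv 2 H) := by
    by_cases h0 : eval ![t, 1, x] (pderiv 0 H) = 0
    · have h2 := sm_aff hH hsm t x b1 h0
      refine ⟨eval ![t, 1, x] (pderiv 2 G) / eval ![t, 1, x] (pderiv 2 H), ?_, ?_⟩
      · rw [h0, mul_zero]
        rw [h0, zero_mul, zero_sub, neg_eq_zero] at b3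
        exact (mul_eq_zero.1 b3).resolve_left h2
      · field_simp
    · refine ⟨eval ![t, 1, x] (pderiv 0 G) / eval ![t, 1, x] (pderiv 0 H), ?_, ?_⟩
      · field_simp
      · field_simp
        linear_combination b3
  obtain ⟨i, hi⟩ := htr _ (pt_ne t x) b1 b2 c
  fin_cases i
  · exact hi c1
  · refine hi ?_
    change eval ![t, 1, x] (pderiv 1 G) = c * eval ![t, 1, x] (pderiv 1 H)
    linear_combination b5 - c * b4 - t * c1 - x * c2
  · exact hi c2

theorem kc_prod {ι : Type} (s : Finset ι) (c : ι → ℂ) :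
    (∏ i ∈ s, kc (c i) : Polynomial (Polynomial ℂ)) = kc (∏ i ∈ s, c i) := by
  simp only [kc, map_prod]

theorem ch_prod {ι : Type} (s : Finset ι) (c : ι → ℂ) (h : ι → MvPolynomial (Fin 3) ℂ) :
    ∏ i ∈ s, (kc (c i) * ch (h i)) = kc (∏ i ∈ s, c i) * ch (∏ i ∈ s, h i) := by
  rw [Finset.prod_mul_distrib, kc_prod, map_prod]

theorem ev_top {N : ℕ} {S : MvPolynomial (Fin 3) ℂ} (hS : S.IsHomogeneous N) (hN : 0 < N)
    (ni : (aeval ![(1 : Polynomial ℂ), 0, Polynomial.X] S).natDegree = N) :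
    eval ![0, 0, 1] S ≠ 0 := by
  rw [← aeval_sw, ← evt_ch] at ni
  intro h
  have h1 := (ch_top (sw_homog hS)).2
  rw [eval_sw, h, Polynomial.C_0] at h1
  have h2 : (evt 0 (ch (sw S))).coeff N = 0 := by
    rw [Pool.Agent.Helper748.TP.coeff_evt, h1, Polynomial.eval_zero]
  rw [← ni, Polynomial.coeff_natDegree, Polynomial.leadingCoeff_eq_zero] at h2
  rw [h2, Polynomial.natDegree_zero] at ni
  omega

theorem irr_pos {n : ℕ} {g : MvPolynomial (Fin 3) ℂ} (hg : g.IsHomogeneous n)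
    (hi : Irreducible g) : 1 ≤ n := by
  by_contra hcon
  have hn : n = 0 := by omega
  have h1 := hg.totalDegree hi.ne_zero
  rw [hn, totalDegree_eq_zero_iff_eq_C] at h1
  apply hi.not_isUnit
  rw [h1]
  have h2 : coeff 0 g ≠ 0 := by
    intro h
    rw [h, C_0] at h1
    exact hi.ne_zero h1
  exact (isUnit_iff_ne_zero.2 h2).map C

/-- **No primitive, in coordinates.** -/
theorem core {ι : Type} [Fintype ι] [DecidableEq ι] {k d K : ℕ} {ee : ι → ℕ} {nn : Fin k → ℕ}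
    {F : MvPolynomial (Fin 3) ℂ} {h : ι → MvPolynomial (Fin 3) ℂ}
    {g : Fin k → MvPolynomial (Fin 3) ℂ} (hFh : F.IsHomogeneous d) (hd : 0 < d)
    (hh : ∀ i, (h i).IsHomogeneous (ee i)) (hg : ∀ j, (g j).IsHomogeneous (nn j))
    (he : 4 ≤ ∑ i, ee i) (hirr : ∀ j, Irreducible (g j))
    (hSF : (∏ i, h i) * ∏ j, g j ∣ F) (hFS : F ∣ ((∏ i, h i) * ∏ j, g j) ^ K)
    (hsm : ∀ i, ∀ z : Fin 3 → ℂ, z ≠ 0 → eval z (h i) = 0 → ∃ l, eval z (pderiv l (h i)) ≠ 0)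
    (htr : ∀ i j, i ≠ j → ∀ z : Fin 3 → ℂ, z ≠ 0 → eval z (h i) = 0 → eval z (h j) = 0 →
      ∀ c : ℂ, ∃ l, eval z (pderiv l (h j)) ≠ c * eval z (pderiv l (h i)))
    (htwo : ∀ i j l, i ≠ j → l ≠ i → l ≠ j → ∀ z : Fin 3 → ℂ, z ≠ 0 → eval z (h i) = 0 →
      eval z (h j) = 0 → eval z (h l) ≠ 0)
    (si : (aeval ![(1 : Polynomial ℂ), 0, Polynomial.X] ((∏ i, h i) * ∏ j, g j)).Separable)
    (ni : (aeval ![(1 : Polynomial ℂ), 0, Polynomial.X] ((∏ i, h i) * ∏ j, g j)).natDegree =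
      ∑ i, ee i + ∑ j, nn j)
    (τ : Fin k → Finset ℂ) (hτ : ∀ j, 3 * nn j < (τ j).card)
    (hτ0 : ∀ j, ∀ t ∈ τ j, ∃ x : ℂ, eval ![t, 1, x] (g j) = 0 ∧
      eval ![t, 1, x] ((∏ i, h i) * ∏ l ∈ Finset.univ.filter (· < j), g l) = 0)
    (hE : Exact d F (-3 / d)) : False := by
  classical
  have hdc : (d : ℂ) ≠ 0 := Nat.cast_ne_zero.2 hd.ne'
  have hds : (d : ℂ) * (-3 / d) = -3 := by field_simp
  have hσ := neg3 hd
  set σ : ℝ := -3 / d with hσd
  have hsσ : (-3 / d : ℂ) = (σ : ℂ) := by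
    rw [hσd]
    push_cast
    rfl
  set e := ∑ i, ee i with hee
  set n := ∑ j, nn j with hnn
  set S : MvPolynomial (Fin 3) ℂ := (∏ i, h i) * ∏ j, g j with hS
  have hShom : S.IsHomogeneous (e + n) :=
    (IsHomogeneous.prod _ _ _ fun i _ => hh i).mul (IsHomogeneous.prod _ _ _ fun j _ => hg j)
  clear_value S
  have hS0 := ev_top hShom (by omega) ni
  have hh0 : ∀ i, eval ![0, 0, 1] (h i) ≠ 0 := by
    intro i h0
    apply hS0
    rw [hS, map_mul, map_prod, Finset.prod_eq_zero (Finset.mem_univ i) h0, zero_mul]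
  have hg0 : ∀ j, eval ![0, 0, 1] (g j) ≠ 0 := by
    intro j h0
    apply hS0
    rw [hS, map_mul, map_prod (eval _) g, Finset.prod_eq_zero (Finset.mem_univ j) h0, mul_zero]
  rw [← aeval_sw, ← evt_ch] at si ni
  obtain ⟨v, hv⟩ := hFS
  have hF0 : eval ![0, 0, 1] F ≠ 0 := by
    intro h0
    have h2 := congrArg (eval ![0, 0, 1]) hv
    rw [map_pow, map_mul, h0, zero_mul] at h2
    exact pow_ne_zero K hS0 h2
  set c := fun i => (eval ![0, 0, 1] (h i))⁻¹ with hc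
  set c' := fun j => (eval ![0, 0, 1] (g j))⁻¹ with hc'
  set cS := (eval ![0, 0, 1] S)⁻¹ with hcS
  have hcS0 : cS ≠ 0 := inv_ne_zero hS0
  have hcc : cS = (∏ i, c i) * ∏ j, c' j := by
    rw [hcS, hS, map_mul, map_prod, map_prod, mul_inv, Finset.prod_inv_distrib,
      Finset.prod_inv_distrib]
  set Φ : ι → Polynomial (Polynomial ℂ) := fun i => kc (c i) * ch (h i) with hΦ
  set Γ : Fin k → Polynomial (Polynomial ℂ) := fun j => kc (c' j) * ch (g j) with hΓ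
  have Φm : ∀ i, (Φ i).Monic ∧ (Φ i).natDegree = ee i := fun i => monic_ch (hh i) (hh0 i)
  have Γm : ∀ j, (Γ j).Monic ∧ (Γ j).natDegree = nn j := fun j => monic_ch (hg j) (hg0 j)
  have iΦ : ∀ i, Inf (Φ i) (kc (c i) * ch (sw (h i))) (ee i) := fun i => inf_ch (hh i) (hh0 i)
  have iΓ : ∀ j, Inf (Γ j) (kc (c' j) * ch (sw (g j))) (nn j) := fun j => inf_ch (hg j) (hg0 j)
  have hQS : (∏ i, Φ i) * ∏ j, Γ j = kc cS * ch S := by
    rw [hΦ, hΓ, ch_prod, ch_prod, hcc, kc_mul, hS, map_mul]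
    ring
  have hFm : (∏ i, Φ i).Monic := Polynomial.monic_prod_of_monic _ _ fun i _ => (Φm i).1
  have hΨm : (∏ j, Γ j).Monic := Polynomial.monic_prod_of_monic _ _ fun i _ => (Γm i).1
  have hFd : (∏ i, Φ i).natDegree = e := by
    rw [Polynomial.natDegree_prod_of_monic _ _ fun i _ => (Φm i).1]
    exact Finset.sum_congr rfl fun i _ => (Φm i).2
  have hΨd : (∏ j, Γ j).natDegree = n := by
    rw [Polynomial.natDegree_prod_of_monic _ _ fun i _ => (Γm i).1]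
    exact Finset.sum_congr rfl fun i _ => (Γm i).2
  have iΦ' := Inf_prod Finset.univ iΦ
  have iΨ' := Inf_prod Finset.univ iΓ
  have hQm : ((∏ i, Φ i) * ∏ j, Γ j).Monic := hFm.mul hΨm
  have hQd : ((∏ i, Φ i) * ∏ j, Γ j).natDegree = e + n := by
    rw [hFm.natDegree_mul hΨm, hFd, hΨd]
  have TQ : TD ((e + n : ℕ) : ℤ) ((∏ i, Φ i) * ∏ j, Γ j) := by
    rw [hQS]
    exact (TD_ch hShom).kc_mul _
  have hsi : (evt 0 ((∏ i, kc (c i) * ch (sw (h i))) * ∏ j, kc (c' j) * ch (sw (g j)))).Separable := by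
    have h1 : (∏ i, kc (c i) * ch (sw (h i))) * ∏ j, kc (c' j) * ch (sw (g j)) =
        kc cS * ch (sw S) := by
      rw [ch_prod, ch_prod, hcc, kc_mul, hS, map_mul sw, map_mul ch, map_prod sw, map_prod sw]
      ring
    rw [h1, map_mul, evt_kc]
    exact si.unit_mul (Polynomial.isUnit_C.2 hcS0.isUnit)
  -- the discriminant
  have hdisc : ∃ (D0 : Polynomial ℂ) (α β : Polynomial (Polynomial ℂ)), D0 ≠ 0 ∧
      Polynomial.C D0 = α * ((∏ i, Φ i) * ∏ j, Γ j) +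
        β * Polynomial.derivative ((∏ i, Φ i) * ∏ j, Γ j) := by
    obtain ⟨X', -, -, -, P⟩ := (iΦ'.mul iΨ').par hQm hQd (by omega) hsi
    obtain ⟨u, h1, h2⟩ := (P.root.and P.inj).exists
    refine disc' (t₀ := u⁻¹) hQm (by rw [hQd]; omega) ?_
    rw [h1, nod]
    exact Polynomial.separable_prod_X_sub_C_iff.2 h2
  obtain ⟨D0, α, β', hD0, hαβ⟩ := hdisc
  -- the logarithmic derivatives
  have hprime : ∀ p, Prime p → p ∣ F → p ∣ S := fun p hp hpg =>
    hp.dvd_of_dvd_pow (hpg.trans ⟨v, hv⟩)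
  obtain ⟨w2, hw2⟩ := log_dvd (g := F) (G := S) 2 hprime
  obtain ⟨w0, hw0⟩ := log_dvd (g := F) (G := S) 0 hprime
  have e2 := congrArg ch hw2
  have e0 := congrArg ch hw0
  rw [map_mul, map_mul, ch_pderiv2] at e2
  rw [map_mul, map_mul, ch_pderiv0] at e0
  have HxE : Polynomial.derivative (ch F) * ((∏ i, Φ i) * ∏ j, Γ j) = ch F * (kc cS * ch w2) := by
    rw [hQS]
    linear_combination kc cS * e2
  have HtE : dt (ch F) * ((∏ i, Φ i) * ∏ j, Γ j) = ch F * (kc cS * ch w0) := by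
    rw [hQS]
    linear_combination kc cS * e0
  have hcSi : (kc cS * kc cS⁻¹ : Polynomial (Polynomial ℂ)) = 1 := by
    rw [← kc_mul, mul_inv_cancel₀ hcS0, kc_one]
  have hQF : (∏ i, Φ i) * ∏ j, Γ j ∣ ch F := by
    obtain ⟨y, hy⟩ := hSF
    refine ⟨kc cS⁻¹ * ch y, ?_⟩
    rw [hQS, hy, map_mul]
    linear_combination (-(ch S * ch y)) * hcSi
  have hFQ : ch F ∣ ((∏ i, Φ i) * ∏ j, Γ j) ^ K := by
    refine ⟨kc cS ^ K * ch v, ?_⟩
    have h2 := congrArg ch hv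
    rw [map_pow, map_mul] at h2
    rw [hQS, mul_pow]
    linear_combination kc cS ^ K * h2
  set hxQ := kc cS * ch w2 with hhx
  set htQ := kc cS * ch w0 with hht
  obtain ⟨Fd, Fc⟩ := ch_top hFh
  have hFδ : (ch F).natDegree = d := by
    refine le_antisymm Fd (Polynomial.le_natDegree_of_ne_zero ?_)
    rw [Fc]
    exact Polynomial.C_ne_zero.2 hF0
  have hchF0 : ch F ≠ 0 := by
    intro h
    rw [h, Polynomial.natDegree_zero] at hFδ
    omega
  obtain ⟨hxn, hxlc⟩ := lead_h hchF0 HxE hQd (by omega) hFδ (by omega)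
  have hQN : ((∏ i, Φ i) * ∏ j, Γ j).coeff (e + n) = 1 := by
    rw [← hQd]
    exact hQm
  rw [hQN, mul_one] at hxlc
  have hxlc' : hxQ.coeff (e + n - 1) = Polynomial.C (d : ℂ) := by
    rw [hxlc]
    simp
  have htn : htQ.natDegree ≤ e + n - 1 := htd_aux hchF0 hQm hQd (by omega) hFδ Fc HtE
  -- the equation
  obtain ⟨K', P, R, hPh, hRh, hP0, hEq⟩ := exact_two' hFh hds hE
  have hX1 : ch (X 1) = 1 := by simp [ch]
  have hEq' := congrArg ch hEq
  rw [map_mul, map_add, map_mul, map_mul, map_add, map_add, map_mul, map_mul, map_pow, ch_C,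
    ch_pderiv0, ch_pderiv0, ch_pderiv2, ch_pderiv2, hX1, one_mul] at hEq'
  have hPd : (ch P).natDegree ≤ d * K' + 1 := by
    obtain ⟨a1, a2⟩ := ch_top hPh
    rw [hP0, Polynomial.C_0] at a2
    exact natDegree_le_pred (n := d * K' + 1) a1 a2
  have hRd : (ch R).natDegree ≤ d * K' + 2 := (ch_top hRh).1
  have hs : ∀ K m : ℕ, (σ : ℂ) * ((m : ℂ) + 1) - K ≠ 0 := by
    intro K m h
    have h2 : ((σ * (m + 1) - K : ℝ) : ℂ) = 0 := by
      push_cast
      exact h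
    have h3 : (σ * (m + 1) - K : ℝ) = 0 := by exact_mod_cast h2
    have h4 : (0 : ℝ) ≤ K := Nat.cast_nonneg _
    have h5 : (0 : ℝ) ≤ m := Nat.cast_nonneg _
    nlinarith
  have hσdr : σ * d = -3 := by
    rw [hσd]
    have : (d : ℝ) ≠ 0 := by exact_mod_cast hd.ne'
    field_simp
  have hlc3 : (kc (σ : ℂ) * hxQ).coeff (e + n - 1) = -3 := by
    rw [kc, Polynomial.coeff_C_mul, hxlc', ← Polynomial.C_mul]
    have h1 : (σ : ℂ) * d = -3 := by
      have : ((σ * d : ℝ) : ℂ) = ((-3 : ℝ) : ℂ) := by rw [hσdr]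
      push_cast at this
      exact this
    rw [h1, Polynomial.C_neg, map_ofNat (Polynomial.C : ℂ →+* Polynomial ℂ) 3]
  rw [hsσ] at hEq'
  obtain ⟨dd, p, r, q, DD⟩ := dat hchF0 hQm HxE HtE hFQ hQF hQd (by omega) hxn htn
    ⟨D0, α, β', hD0, hαβ⟩ hs hFδ hPd hRd hlc3 hEq'
  -- the curves
  have hDr : ∀ t ∉ D0.roots.toFinset, D0.eval t ≠ 0 := by
    intro t ht h
    rw [Multiset.mem_toFinset, Polynomial.mem_roots hD0] at ht
    exact ht h
  have hci : ∀ i, c i ≠ 0 := fun i => inv_ne_zero (hh0 i)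
  have hcj : ∀ j, c' j ≠ 0 := fun j => inv_ne_zero (hg0 j)
  have v0 : ∀ i t x, ev2 (Φ i) t x = c i * eval ![t, 1, x] (h i) := fun i t x => by
    rw [hΦ]
    beta_reduce
    rw [ev2_mul, ev2_kc, ev_ch]
  have v1 : ∀ i t x, ev2 (dt (Φ i)) t x = c i * eval ![t, 1, x] (pderiv 0 (h i)) :=
    fun i t x => by
      rw [hΦ]
      beta_reduce
      rw [dt_kc, ← ch_pderiv0, ev2_mul, ev2_kc, ev_ch]
  have v2 : ∀ i t x, ev2 (Polynomial.derivative (Φ i)) t x =
      c i * eval ![t, 1, x] (pderiv 2 (h i)) := fun i t x => by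
    rw [hΦ]
    beta_reduce
    rw [der_kc, ← ch_pderiv2, ev2_mul, ev2_kc, ev_ch]
  have v3 : ∀ j t x, ev2 (Γ j) t x = c' j * eval ![t, 1, x] (g j) := fun j t x => by
    rw [hΓ]
    beta_reduce
    rw [ev2_mul, ev2_kc, ev_ch]
  have SS : Snc Φ D0.roots.toFinset := by
    refine ⟨fun i => (Φm i).1, ?_, ?_, ?_, ?_⟩
    · intro i t x a1 a2 a3
      rw [v0] at a1
      rw [v1] at a2
      rw [v2] at a3
      exact sm_aff (hh i) (hsm i) t x ((mul_eq_zero.1 a1).resolve_left (hci i))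
        ((mul_eq_zero.1 a2).resolve_left (hci i)) ((mul_eq_zero.1 a3).resolve_left (hci i))
    · intro i j hij t x a1 a2 a3
      rw [v0] at a1 a2
      rw [v1, v2, v1, v2] at a3
      have b1 := (mul_eq_zero.1 a1).resolve_left (hci i)
      have b2 := (mul_eq_zero.1 a2).resolve_left (hci j)
      refine tr_aff (hh i) (hh j) (hsm i) (htr i j hij) t x b1 b2 ?_
      refine (mul_eq_zero.1 ?_).resolve_left (mul_ne_zero (hci i) (hci j))
      linear_combination a3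
    · intro i j l hij hli hlj t x a1 a2 a3
      rw [v0] at a1 a2 a3
      exact htwo i j l hij hli hlj _ (pt_ne t x) ((mul_eq_zero.1 a1).resolve_left (hci i))
        ((mul_eq_zero.1 a2).resolve_left (hci j)) ((mul_eq_zero.1 a3).resolve_left (hci l))
    · intro t ht
      exact (sep_of_disc hαβ (hDr t ht)).of_dvd (map_dvd (evt t) ⟨_, rfl⟩)
  have hΓirr : ∀ j, Irreducible (Γ j) := by
    intro j
    have hu : IsUnit (kc (c' j) : Polynomial (Polynomial ℂ)) := by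
      rw [kc]
      exact ((isUnit_iff_ne_zero.2 (hcj j)).map Polynomial.C).map Polynomial.C
    have h1 : ¬ IsUnit (ch (g j)) := by
      intro h1
      have h2 : IsUnit (Γ j) := hu.mul h1
      have h3 := (Γm j).1.isUnit_iff.1 h2
      have h4 := (Γm j).2
      rw [h3, Polynomial.natDegree_one] at h4
      have := irr_pos (hg j) (hirr j)
      omega
    exact (irreducible_isUnit_mul hu).2 (irr_ch (hg j) (hirr j) h1)
  refine main (Γ := Γ) (nn := nn) SS he hσ hD0 hαβ hFd TQ iΦ' iΓ rfl hsi (fun j => (Γm j).1) hΓirr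
    τ hτ ?_ DD rfl hFQ hxlc' hσdr
  intro j t ht
  obtain ⟨x, hx1, hx2⟩ := hτ0 j t ht
  refine ⟨x, by rw [v3, hx1, mul_zero], ?_⟩
  have h1 : (∏ i, Φ i) * ∏ l ∈ Finset.univ.filter (· < j), Γ l =
      kc ((∏ i, c i) * ∏ l ∈ Finset.univ.filter (· < j), c' l) *
        ch ((∏ i, h i) * ∏ l ∈ Finset.univ.filter (· < j), g l) := by
    rw [hΦ, hΓ, ch_prod, ch_prod, kc_mul, map_mul]
    ring
  rw [h1, ev2_mul, ev_ch, hx2, mul_zero]

end Pool.Agent.H941.NC
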