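import Pool.Agent.H941.TF.Glob
import Pool.Agent.H941.SC.Ana

set_option autoImplicit false
set_option linter.unusedSectionVars false
set_option linter.unusedVariables false

/-! # Functions on the curve with many zeros -/

namespace Pool.Agent.H941.NC

open Polynomial Finset Filter Topology Metric Pool.Agent.Helper748.TP Pool.Agent.H941.TF
  Pool.Agent.H941.SC

/-- an entire function of bounded growth with many zeros -/
theorem count0 (Z : Finset ℂ) : ∀ (P : ℂ → ℂ) (K : ℕ), Differentiable ℂ P → K < Z.card →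
    (∀ z ∈ Z, P z = 0) → (∃ L, Tendsto (fun u => u ^ K * P u⁻¹) (𝓝[≠] 0) (𝓝 L)) →
    ∀ t, P t = 0 := by
  classical
  induction Z using Finset.induction_on with
  | empty =>
    intro P K _ hK
    simp at hK
  | insert z Z' hz ih =>
    intro P K hP hK hZ hL
    rw [Finset.card_insert_of_notMem hz] at hK
    obtain ⟨L, hL⟩ := hL
    rcases K with _ | K'
    · have h1 : Tendsto P (cocompact ℂ) (𝓝 L) := lim_inv (by simpa using hL)
      have h2 := hP.eq_const_of_tendsto_cocompact h1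
      have h3 := hZ z (mem_insert_self _ _)
      rw [h2] at h3 ⊢
      intro t
      exact h3
    · have hP1 : Differentiable ℂ (dslope P z) := by
        have := (Complex.differentiableOn_dslope (f := P) (c := z) (s := Set.univ)
          Filter.univ_mem).2 hP.differentiableOn
        exact fun t => (this t trivial).differentiableAt Filter.univ_mem
      have hPe : ∀ t, (t - z) * dslope P z t = P t := by
        intro t
        have h1 := sub_smul_dslope P z t
        rw [hZ z (mem_insert_self _ _), sub_zero, smul_eq_mul] at h1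
        exact h1
      have h1 := ih (dslope P z) K' hP1 (by omega) (fun z' hz' => by
        have h2 := hPe z'
        rw [hZ z' (mem_insert_of_mem hz')] at h2
        refine (mul_eq_zero.1 h2).resolve_left ?_
        intro h3
        rw [sub_eq_zero.1 h3] at hz'
        exact hz hz') ?_
      · intro t
        rw [← hPe, h1, mul_zero]
      · have t1 : Tendsto (fun u : ℂ => 1 - z * u) (𝓝[≠] 0) (𝓝 1) := by
          have : Tendsto (fun u : ℂ => 1 - z * u) (𝓝 0) (𝓝 (1 - z * 0)) := by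
            have h : ContinuousAt (fun u : ℂ => 1 - z * u) 0 := by fun_prop
            exact h.tendsto
          rw [mul_zero, sub_zero] at this
          exact this.mono_left nhdsWithin_le_nhds
        refine ⟨_, (hL.div t1 one_ne_zero).congr' ?_⟩
        filter_upwards [ev_ne, t1.eventually_ne one_ne_zero] with u hu hu1
        change u ^ (K' + 1) * P u⁻¹ / (1 - z * u) = _
        rw [← hPe u⁻¹, pow_succ]
        have h3 : u * (u⁻¹ - z) = 1 - z * u := by
          rw [mul_sub, mul_inv_cancel₀ hu]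
          ring
        rw [div_eq_iff hu1, ← h3]
        ring

/-- an analytic function outside a finite set, with limits at the exceptional points -/
theorem ext_fin {F : ℂ → ℂ} {B : Finset ℂ} (hF : ∀ t ∉ B, DifferentiableAt ℂ F t)
    (hB : ∀ t ∈ B, ∃ l, Tendsto F (𝓝[≠] t) (𝓝 l)) :
    ∃ G : ℂ → ℂ, Differentiable ℂ G ∧ (∀ t ∉ B, G t = F t) ∧
      ∀ t ∈ B, Tendsto F (𝓝[≠] t) (𝓝 (G t)) := by
  classical
  have hl : ∀ t, ∃ l, t ∈ B → Tendsto F (𝓝[≠] t) (𝓝 l) := by
    intro t
    by_cases ht : t ∈ B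
    · obtain ⟨l, hl⟩ := hB t ht
      exact ⟨l, fun _ => hl⟩
    · exact ⟨0, fun h => absurd h ht⟩
  choose l hl using hl
  set G : ℂ → ℂ := fun t => if t ∈ B then l t else F t with hG
  have hGF : ∀ t ∉ B, G =ᶠ[𝓝 t] F := by
    intro t ht
    have h1 : (B : Set ℂ)ᶜ ∈ 𝓝 t := B.finite_toSet.isClosed.isOpen_compl.mem_nhds (by simpa using ht)
    filter_upwards [h1] with v hv
    have hv' : v ∉ B := by simpa using hv
    simp only [hG, if_neg hv']
  have hGF' : ∀ t, G =ᶠ[𝓝[≠] t] F := by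
    intro t
    have h0 : ((B.erase t : Finset ℂ) : Set ℂ)ᶜ ∈ 𝓝 t :=
      (B.erase t).finite_toSet.isClosed.isOpen_compl.mem_nhds (by simp)
    filter_upwards [mem_nhdsWithin_of_mem_nhds h0, self_mem_nhdsWithin] with v hv hvt
    have hv' : v ∉ B := by
      intro h
      apply hv
      have hvt' : v ≠ t := hvt
      simp [h, hvt']
    simp only [hG, if_neg hv']
  refine ⟨G, ?_, fun t ht => by simp only [hG, if_neg ht], fun t ht => ?_⟩
  · intro t
    by_cases ht : t ∈ B
    · refine (Complex.analyticAt_of_differentiable_on_punctured_nhds_of_continuousAt ?_ ?_).differentiableAt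
      · have h0 : ((B.erase t : Finset ℂ) : Set ℂ)ᶜ ∈ 𝓝 t :=
          (B.erase t).finite_toSet.isClosed.isOpen_compl.mem_nhds (by simp)
        filter_upwards [mem_nhdsWithin_of_mem_nhds h0, self_mem_nhdsWithin] with v hv hvt
        have hv' : v ∉ B := by
          intro h
          apply hv
          have hvt' : v ≠ t := hvt
          simp [h, hvt']
        exact (hF v hv').congr_of_eventuallyEq (hGF v hv')
      · rw [← continuousWithinAt_compl_self]
        have h1 : G t = l t := by simp only [hG, if_pos ht]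
        rw [ContinuousWithinAt, h1]
        exact (hl t ht).congr' (hGF' t).symm
    · exact (hF t ht).congr_of_eventuallyEq (hGF t ht)
  · have h1 : G t = l t := by simp only [hG, if_pos ht]
    rw [h1]
    exact hl t ht

variable {N : ℕ}

/-- the product over the roots -/
noncomputable def Pr (Q : ℂ[X][X]) (w : ℂ → ℂ → ℂ) (t : ℂ) : ℂ :=
  ∏ z ∈ (evt t Q).roots.toFinset, w t z

theorem Pr_eq {Q : ℂ[X][X]} {w : ℂ → ℂ → ℂ} {t : ℂ} {a : Fin N → ℂ} (hr : evt t Q = nod a)
    (ha : Function.Injective a) : Pr Q w t = ∏ j, w t (a j) := by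
  classical
  rw [Pr, hr, roots_nod, Finset.prod_image fun i _ j _ h => ha h]

/-- **Counting zeros on the curve.** -/
theorem count {Q : ℂ[X][X]} (hQ : Q.Monic) (hN : Q.natDegree = N) {D0 : ℂ[X]} {α β : ℂ[X][X]}
    (hαβ : C D0 = α * Q + β * derivative Q) {w : ℂ → ℂ → ℂ} {B : Finset ℂ}
    (hB : ∀ t ∉ B, D0.eval t ≠ 0)
    (h1 : ∀ t ∉ B, ∀ a : ℂ → ℂ, DifferentiableAt ℂ a t → (∀ᶠ s in 𝓝 t, ev2 Q s (a s) = 0) →
      DifferentiableAt ℂ (fun s => w s (a s)) t)
    {Z : Finset ℂ} (hZB : Z ⊆ B)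
    (h2 : ∀ b ∈ B, ∃ (m : ℕ) (a : Fin N → ℂ → ℂ) (L : Fin N → ℂ), 0 < m ∧
      Par N Q (fun u => b + u ^ m) a ∧
      (∀ j, Tendsto (fun u => w (b + u ^ m) (a j u)) (𝓝[≠] 0) (𝓝 (L j))) ∧
      (b ∈ Z → ∃ j, L j = 0))
    {k : Fin N → ℕ} (hk : ∑ j, k j < Z.card)
    (h3 : ∃ X : Fin N → ℂ → ℂ, Par N Q (fun u => u⁻¹) (fun j u => X j u / u) ∧
      ∀ j, ∃ l, Tendsto (fun u => u ^ k j * w u⁻¹ (X j u / u)) (𝓝[≠] 0) (𝓝 l)) :
    ∀ t ∉ B, ∃ x, ev2 Q t x = 0 ∧ w t x = 0 := by
  classical
  have hBlim : ∀ b ∈ B, ∃ l, Tendsto (Pr Q w) (𝓝[≠] b) (𝓝 l) ∧ (b ∈ Z → l = 0) := by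
    intro b hb
    obtain ⟨m, a, L, hm, P, hL, hz⟩ := h2 b hb
    refine ⟨∏ j, L j, lim_pow hm ?_, fun hbz => ?_⟩
    · refine (tendsto_finsetProd univ fun j _ => hL j).congr' ?_
      filter_upwards [P.root, P.inj] with u hu hiu
      exact (Pr_eq hu hiu).symm
    · obtain ⟨j, hj⟩ := hz hbz
      exact Finset.prod_eq_zero (mem_univ j) hj
  obtain ⟨G, hGd, hG1, hG2⟩ := ext_fin (F := Pr Q w) (B := B) (by
    intro t ht
    have h4 : (B : Set ℂ)ᶜ ∈ 𝓝 t :=
      B.finite_toSet.isClosed.isOpen_compl.mem_nhds (by simpa using ht)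
    obtain ⟨ρ, hρ, h5⟩ := Metric.mem_nhds_iff.1 h4
    have h5' : ∀ u ∈ ball t ρ, u ∉ B := fun u hu => by simpa using h5 hu
    obtain ⟨a, h6, h7, h8⟩ := par_ball hQ hN (c := t) (ρ := ρ) (fun u hu =>
      sep_of_disc hαβ (hB u (h5' u hu)))
    have hbt := ball_mem_nhds t hρ
    have e1 : ∀ᶠ u in 𝓝 t, evt u Q = nod fun j => a j u := Filter.mem_of_superset hbt h8
    have e2 : ∀ᶠ u in 𝓝 t, Function.Injective fun j => a j u := Filter.mem_of_superset hbt h7
    have e3 : Pr Q w =ᶠ[𝓝 t] fun u => ∏ j, w u (a j u) := by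
      filter_upwards [e1, e2] with u hu hiu
      exact Pr_eq hu hiu
    refine DifferentiableAt.congr_of_eventuallyEq ?_ e3
    refine DifferentiableAt.fun_finsetProd fun j _ =>
      h1 t ht (a j) ((h6 j).differentiableAt hbt) ?_
    filter_upwards [e1] with u hu
    rw [ev2, hu]
    exact eval_nod (x := fun j => a j u) j) (fun b hb => by
      obtain ⟨l, hl, -⟩ := hBlim b hb
      exact ⟨l, hl⟩)
  have hG0 := count0 Z G (∑ j, k j) hGd hk (fun z hz => by
    obtain ⟨l, hl, hl0⟩ := hBlim z (hZB hz)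
    rw [tendsto_nhds_unique (hG2 z (hZB hz)) hl, hl0 hz]) (by
    obtain ⟨X', P, hL⟩ := h3
    choose l hl using hL
    refine ⟨∏ j, l j, (tendsto_finsetProd univ fun j _ => hl j).congr' ?_⟩
    filter_upwards [P.root, P.inj, ev_notin' B] with u hu hiu huB
    rw [hG1 _ huB, Pr_eq hu hiu, Finset.prod_mul_distrib, Finset.prod_pow_eq_pow_sum])
  intro t ht
  have h4 := hG1 t ht
  rw [hG0, Pr, eq_comm, Finset.prod_eq_zero_iff] at h4
  obtain ⟨x, hx, hx0⟩ := h4
  rw [Multiset.mem_toFinset, mem_roots (evt_monic hQ t).ne_zero] at hx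
  exact ⟨x, hx, hx0⟩

end Pool.Agent.H941.NC
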