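import Pool.Agent.H941.NC.Fam

set_option autoImplicit false
set_option linter.unusedSectionVars false
set_option linter.unusedVariables false

/-! # Bounded fractions at a smooth point of a curve -/

namespace Pool.Agent.H941.NC

open Polynomial Finset Filter Topology Metric Pool.Agent.Helper748.TP Pool.Agent.H941.TF
  Pool.Agent.H941.SC

theorem an_ev2 (P : ℂ[X][X]) {T a : ℂ → ℂ} {u : ℂ} (hT : AnalyticAt ℂ T u)
    (ha : AnalyticAt ℂ a u) : AnalyticAt ℂ (fun v => ev2 P (T v) (a v)) u := by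
  induction P using Polynomial.induction_on' with
  | add P Q hP hQ =>
    have : (fun v => ev2 (P + Q) (T v) (a v)) = fun v => ev2 P (T v) (a v) + ev2 Q (T v) (a v) :=
      _root_.funext fun v => ev2_add _ _ _ _
    rw [this]
    exact hP.add hQ
  | monomial n c =>
    have : (fun v => ev2 (monomial n c) (T v) (a v)) = fun v => c.eval (T v) * a v ^ n :=
      _root_.funext fun v => ev2_monomial _ _ _ _
    rw [this]
    have h1 : AnalyticAt ℂ (fun v => c.eval (T v)) u := by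
      have := hT.aeval_polynomial c
      simpa [Polynomial.coe_aeval_eq_eval] using this
    exact h1.mul (ha.pow n)

theorem ev_pow (b : ℂ) {m : ℕ} (hm : 0 < m) {c : ℂ[X]} (hc : c ≠ 0) :
    ∀ᶠ u in 𝓝[≠] (0 : ℂ), c.eval (b + u ^ m) ≠ 0 := by
  filter_upwards [ev_notin c.roots.toFinset b hm] with u hu h
  exact hu (by rw [Multiset.mem_toFinset, mem_roots hc]; exact h)

/-- a uniformizer at a smooth point -/
theorem unif {Φ : ℂ[X][X]} {t x : ℂ} (h0 : ev2 Φ t x = 0)
    (hs : ev2 (derivative Φ) t x ≠ 0 ∨ ev2 (dt Φ) t x ≠ 0) :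
    ∃ π g : ℂ[X][X], ev2 g t x ≠ 0 ∧
      (π = C (X - C t) ∨ (π = X - C (C x) ∧ ev2 (dt Φ) t x ≠ 0)) ∧
      ∀ P, ev2 P t x = 0 → ∃ P1, Φ ∣ g * P - π * P1 := by
  obtain ⟨A', B', hΦ, hA, hB⟩ := dec' Φ t x h0
  rcases hs with hs | hs
  · refine ⟨C (X - C t), B', by rw [← hB]; exact hs, Or.inl rfl, fun P hP => ?_⟩
    obtain ⟨A, B, hPe, -, -⟩ := dec' P t x hP
    refine ⟨B' * A - A' * B, B, ?_⟩
    linear_combination B' * hPe - B * hΦ
  · refine ⟨X - C (C x), A', by rw [← hA]; exact hs, Or.inr ⟨rfl, hs⟩, fun P hP => ?_⟩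
    obtain ⟨A, B, hPe, -, -⟩ := dec' P t x hP
    refine ⟨A' * B - B' * A, A, ?_⟩
    linear_combination A' * hPe - A * hΦ

/-- **Bounded fractions at a smooth point.** -/
theorem loc_div {Φ : ℂ[X][X]} {b x : ℂ} {m : ℕ} (hm : 0 < m) {a : ℂ → ℂ} (ha : AnalyticAt ℂ a 0)
    (hax : a 0 = x) (hr : ∀ᶠ u in 𝓝[≠] (0 : ℂ), ev2 Φ (b + u ^ m) (a u) = 0)
    (hs : ev2 (derivative Φ) b x ≠ 0 ∨ ev2 (dt Φ) b x ≠ 0) :
    ∀ (n : ℕ) (A H : ℂ[X][X]), analyticOrderAt (fun u => ev2 H (b + u ^ m) (a u)) 0 = n →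
      (∃ L, Tendsto (fun u => ev2 A (b + u ^ m) (a u) / ev2 H (b + u ^ m) (a u)) (𝓝[≠] 0) (𝓝 L)) →
      ∃ g W, ev2 g b x ≠ 0 ∧ Φ ∣ g * A - H * W := by
  have hT : AnalyticAt ℂ (fun u : ℂ => b + u ^ m) 0 := by fun_prop
  have hT0 : b + (0 : ℂ) ^ m = b := by rw [zero_pow hm.ne', add_zero]
  have han : ∀ P, AnalyticAt ℂ (fun u => ev2 P (b + u ^ m) (a u)) 0 := fun P => an_ev2 P hT ha
  have htd : ∀ P, Tendsto (fun u => ev2 P (b + u ^ m) (a u)) (𝓝[≠] 0) (𝓝 (ev2 P b x)) := by
    intro P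
    have := (han P).continuousAt.tendsto.mono_left (nhdsWithin_le_nhds (s := {0}ᶜ))
    rwa [hT0, hax] at this
  have h0 : ev2 Φ b x = 0 :=
    tendsto_nhds_unique (htd Φ) (tendsto_const_nhds.congr' (hr.mono fun u hu => hu.symm))
  obtain ⟨π, g0, hg0, hπ, hdiv⟩ := unif h0 hs
  have hπ0 : ev2 π b x = 0 := by
    rcases hπ with rfl | ⟨rfl, -⟩
    · rw [ev2_C]; simp
    · rw [ev2_sub, ev2_X, ev2_C]; simp
  have hπne : ∀ᶠ u in 𝓝[≠] (0 : ℂ), ev2 π (b + u ^ m) (a u) ≠ 0 := by
    rcases hπ with rfl | ⟨rfl, hd⟩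
    · filter_upwards [ev_ne] with u hu
      rw [ev2_C, eval_sub, eval_X, eval_C, add_sub_cancel_left]
      exact pow_ne_zero m hu
    · rcases (han (X - C (C x))).meromorphicAt.eventually_eq_zero_or_eventually_ne_zero with h | h
      · exfalso
        have hc : Φ.eval (C x) ≠ 0 := by
          intro hc
          apply hd
          rw [← eval_evx, ← der_evx, hc, derivative_zero, eval_zero]
        obtain ⟨u, h1, h2, h3⟩ := ((ev_pow b hm hc).and (h.and hr)).exists
        rw [ev2_sub, ev2_X, ev2_C, eval_C, sub_eq_zero] at h2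
        rw [h2, ← eval_evx] at h3
        exact h1 h3
      · exact h
  intro n
  induction n using Nat.strong_induction_on with
  | _ n ih =>
    intro A H hn hL
    by_cases hH : ev2 H b x = 0
    · obtain ⟨L, hL⟩ := hL
      have hHne : ∀ᶠ u in 𝓝[≠] (0 : ℂ), ev2 H (b + u ^ m) (a u) ≠ 0 := by
        rcases (han H).meromorphicAt.eventually_eq_zero_or_eventually_ne_zero with h | h
        · exfalso
          have h1 : ∀ᶠ u in 𝓝 (0 : ℂ), ev2 H (b + u ^ m) (a u) = 0 := by
            rw [eventually_nhdsWithin_iff] at h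
            filter_upwards [h] with u hu
            by_cases hu0 : u = 0
            · rw [hu0, hT0, hax, hH]
            · exact hu hu0
          rw [analyticOrderAt_eq_top.2 h1] at hn
          exact absurd hn (by simp)
        · exact h
      have hA : ev2 A b x = 0 := by
        have h1 := hL.mul (htd H)
        rw [hH, mul_zero] at h1
        refine tendsto_nhds_unique (htd A) (h1.congr' ?_)
        filter_upwards [hHne] with u hu
        rw [div_mul_cancel₀ _ hu]
      obtain ⟨A1, hA1⟩ := hdiv A hA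
      obtain ⟨H1, hH1⟩ := hdiv H hH
      have e1 : ∀ P P1, Φ ∣ g0 * P - π * P1 → ∀ᶠ u in 𝓝[≠] (0 : ℂ),
          ev2 g0 (b + u ^ m) (a u) * ev2 P (b + u ^ m) (a u) =
          ev2 π (b + u ^ m) (a u) * ev2 P1 (b + u ^ m) (a u) := by
        intro P P1 hP
        filter_upwards [hr] with u hu
        have h1 := ev2_dvd hP hu
        rw [ev2_sub, ev2_mul, ev2_mul] at h1
        exact sub_eq_zero.1 h1
      have e1' : (fun u => ev2 g0 (b + u ^ m) (a u) * ev2 H (b + u ^ m) (a u)) =ᶠ[𝓝 0]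
          fun u => ev2 π (b + u ^ m) (a u) * ev2 H1 (b + u ^ m) (a u) := by
        have h1 := e1 H H1 hH1
        rw [eventually_nhdsWithin_iff] at h1
        filter_upwards [h1] with u hu
        by_cases hu0 : u = 0
        · rw [hu0, hT0, hax, hH, hπ0, mul_zero, zero_mul]
        · exact hu hu0
      have o1 : analyticOrderAt (fun u => ev2 g0 (b + u ^ m) (a u)) 0 = 0 := by
        rw [(han g0).analyticOrderAt_eq_zero, hT0, hax]
        exact hg0
      have o2 : analyticOrderAt (fun u => ev2 π (b + u ^ m) (a u)) 0 ≠ 0 := by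
        rw [(han π).analyticOrderAt_ne_zero, hT0, hax]
        exact hπ0
      have o3 := analyticOrderAt_congr e1'
      have o4 := analyticOrderAt_mul (han g0) (han H)
      have o5 := analyticOrderAt_mul (han π) (han H1)
      have o6 : analyticOrderAt (fun u => ev2 π (b + u ^ m) (a u)) 0 +
          analyticOrderAt (fun u => ev2 H1 (b + u ^ m) (a u)) 0 = n := by
        rw [← o5, ← hn, ← zero_add (analyticOrderAt (fun u => ev2 H (b + u ^ m) (a u)) 0), ← o1,
          ← o4]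
        exact o3.symm
      obtain ⟨k, hk⟩ : ∃ k : ℕ, analyticOrderAt (fun u => ev2 π (b + u ^ m) (a u)) 0 = k :=
        ENat.ne_top_iff_exists.1 (fun h => by rw [h] at o6; simp at o6) |>.imp fun k hk => hk.symm
      obtain ⟨n', hn'⟩ : ∃ k : ℕ, analyticOrderAt (fun u => ev2 H1 (b + u ^ m) (a u)) 0 = k :=
        ENat.ne_top_iff_exists.1 (fun h => by rw [h] at o6; simp at o6) |>.imp fun k hk => hk.symm
      rw [hk, hn'] at o6
      rw [hk] at o2
      have o7 : k + n' = n := by exact_mod_cast o6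
      have o8 : k ≠ 0 := by exact_mod_cast o2
      obtain ⟨g, W, hg, hW⟩ := ih n' (by omega) A1 H1 hn' ⟨L, hL.congr' (by
        filter_upwards [e1 A A1 hA1, e1 H H1 hH1, hHne, hπne,
          (htd g0).eventually_ne hg0] with u h1 h2 h3 h4 h5
        have h6 : ev2 H1 (b + u ^ m) (a u) ≠ 0 := by
          intro h6
          rw [h6, mul_zero] at h2
          exact mul_ne_zero h5 h3 h2
        rw [div_eq_div_iff h3 h6]
        refine mul_left_cancel₀ (mul_ne_zero h5 h4) ?_
        linear_combination (ev2 π (b + u ^ m) (a u) * ev2 H1 (b + u ^ m) (a u)) * h1 -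
          (ev2 π (b + u ^ m) (a u) * ev2 A1 (b + u ^ m) (a u)) * h2)⟩
      refine ⟨g * g0, g0 * W, ?_, ?_⟩
      · rw [ev2_mul]
        exact mul_ne_zero hg hg0
      · obtain ⟨w1, hw1⟩ := hA1
        obtain ⟨w2, hw2⟩ := hH1
        obtain ⟨w3, hw3⟩ := hW
        refine ⟨g * w1 - W * w2 + π * w3, ?_⟩
        linear_combination g * hw1 - W * hw2 + π * hw3
    · exact ⟨H, A, hH, ⟨0, by ring⟩⟩

end Pool.Agent.H941.NC
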