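import Pool.Agent.H941.SC.Poly
import Pool.Agent.H941.SC.Ana

set_option autoImplicit false
set_option linter.unusedSectionVars false
set_option linter.unusedVariables false

/-! # Families of roots of a component, and equality of the residues at the intersections -/

namespace Pool.Agent.H941.NC

open Polynomial Finset Filter Topology Metric Pool.Agent.Helper748.TP Pool.Agent.H941.TF
  Pool.Agent.H941.SC

section
variable {N : ℕ} {Qp γ hx ht V : ℂ[X][X]} {σ : ℝ} {d : ℂ[X]} {p r q : ℂ[X][X]}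

/-- near a finite value -/
theorem lim_fin2 (D : Dat N Qp γ hx ht σ V d p r q) (hN2 : 2 ≤ N) (hσ : σ < 0) {M : ℕ}
    (hγ : γ ∣ Qp ^ M) {T : ℂ → ℂ} {a : Fin N → ℂ → ℂ} (P : Par N Qp T a) (hT : AnalyticAt ℂ T 0)
    (ha : ∀ j, AnalyticAt ℂ (a j) 0) (hd : ∀ᶠ u in 𝓝[≠] (0 : ℂ), d.eval (T u) ≠ 0) :
    ∃ L : Fin N → ℂ, (∀ j, Tendsto (fun u => yy σ hx d p (T u) (a j u)) (𝓝[≠] 0) (𝓝 (L j))) ∧
      ∀ j i, a j 0 = a i 0 → L j = L i := by
  classical
  obtain ⟨b, hb, hbe, hme, hode⟩ := D.system hN2 hσ hγ P hd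
  obtain ⟨c, hc1, hc2, hc3, hc4⟩ := ordc ha P.inj
  have tu := tendsto_u
  have tT' : Tendsto (deriv T) (𝓝[≠] 0) (𝓝 (deriv T 0)) :=
    hT.deriv.continuousAt.tendsto.mono_left nhdsWithin_le_nhds
  have tV : ∀ j, Tendsto (fun u => ev2 V (T u) (a j u)) (𝓝[≠] 0) (𝓝 (ev2 V (T 0) (a j 0))) :=
    fun j => (hasDerivAt_ev2 V hT.differentiableAt.hasDerivAt
      (ha j).differentiableAt.hasDerivAt).continuousAt.tendsto.mono_left nhdsWithin_le_nhds
  obtain ⟨K, r', h1, h2, h3⟩ := loc (z := fun j v => yy σ hx d p (T v) (a j v)) hme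
    (E := fun u => 0) (E0 := 0) tendsto_const_nhds
    (B := fun j i u => b i * (u * ((deriv (a j) u - deriv (a i) u) / (a j u - a i u))))
    (β := fun j i => ((b i * c j i : ℝ) : ℂ))
    (fun j i hi => by
      have h := (hc1 j i (Ne.symm (Finset.ne_of_mem_erase hi))).const_mul (b i : ℂ)
      push_cast
      exact h)
    (f := fun j u => u * -(deriv T u * ev2 V (T u) (a j u))) (φ := fun _ => 0)
    (fun j => by
      have h := tu.mul (tT'.mul (tV j)).neg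
      rwa [zero_mul] at h)
    (fun j => by
      filter_upwards [hode j] with u hu
      rw [← hu, mul_add, Finset.mul_sum, zero_mul, add_zero]
      congr 1
      exact Finset.sum_congr rfl fun i _ => by ring)
  have h4 := energy hb (c := fun j i => (c j i : ℝ)) (fun j i => Nat.cast_nonneg _)
    (fun j i => by rw [hc4]) (K := (K : ℝ)) (Nat.cast_nonneg _) (r := r') (fun j => by
      have h := h3 j
      rw [ite_self, add_zero] at h
      push_cast at h ⊢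
      exact h)
  have hK : K = 0 := by
    by_contra hK
    have h5 := h4.1 (by exact_mod_cast Nat.pos_of_ne_zero hK)
    rcases h2 with h2 | ⟨j, hj⟩
    · exact hK h2
    · exact hj (by rw [h5]; rfl)
  refine ⟨r', fun j => ?_, fun j i hji => ?_⟩
  · have h := h1 j
    rw [hK] at h
    simpa using h
  · by_cases h : j = i
    · rw [h]
    · exact h4.2 j i (by exact_mod_cast hc2 j i h hji)

/-- The parametrization of the roots near a point, and the limits of the residues -/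
theorem fin_pt2 (D : Dat N Qp γ hx ht σ V d p r q) (hN2 : 2 ≤ N) (hσ : σ < 0) {M : ℕ}
    (hγ : γ ∣ Qp ^ M) {D0 : ℂ[X]} {α β : ℂ[X][X]} (hD : D0 ≠ 0)
    (hαβ : C D0 = α * Qp + β * derivative Qp) (b : ℂ) :
    ∃ (m : ℕ) (a : Fin N → ℂ → ℂ) (L : Fin N → ℂ), 0 < m ∧ (∀ j, AnalyticAt ℂ (a j) 0) ∧
      Par N Qp (fun u => b + u ^ m) a ∧ (∀ᶠ u in 𝓝[≠] (0 : ℂ), d.eval (b + u ^ m) ≠ 0) ∧
      (∀ j, Tendsto (fun u => yy σ hx d p (b + u ^ m) (a j u)) (𝓝[≠] 0) (𝓝 (L j))) ∧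
      ∀ j i, a j 0 = a i 0 → L j = L i := by
  obtain ⟨ρ, hρ, h1⟩ := ball_ne (mul_ne_zero D.d0 hD) b
  obtain ⟨m, a, hm, h2, h3, h4⟩ := par_punct D.monic D.deg (c := b) hρ (fun t ht htb => by
    have h := h1 t ht htb
    rw [eval_mul] at h
    exact sep_of_disc hαβ (right_ne_zero_of_mul h))
  have hTan : AnalyticAt ℂ (fun u : ℂ => b + u ^ m) 0 := by fun_prop
  have P : Par N Qp (fun u => b + u ^ m) a :=
    ⟨hTan.meromorphicAt, fun j => (h2 j).meromorphicAt, h4, h3⟩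
  have hd : ∀ᶠ u in 𝓝[≠] (0 : ℂ), d.eval (b + u ^ m) ≠ 0 := by
    have h5 : ∀ᶠ u in 𝓝 (0 : ℂ), b + u ^ m ∈ ball b ρ := by
      have h6 : Tendsto (fun u : ℂ => b + u ^ m) (𝓝 0) (𝓝 b) := by
        have := hTan.continuousAt.tendsto
        simpa [zero_pow hm.ne'] using this
      exact h6 (ball_mem_nhds b hρ)
    filter_upwards [h5.filter_mono nhdsWithin_le_nhds, ev_ne] with u hu hu0
    have h := h1 _ hu (by
      intro h
      have h' : u ^ m = 0 := by linear_combination h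
      exact pow_ne_zero m hu0 h')
    rw [eval_mul] at h
    exact left_ne_zero_of_mul h
  obtain ⟨L, h5, h6⟩ := lim_fin2 D hN2 hσ hγ P hTan h2 hd
  exact ⟨m, a, L, hm, h2, P, hd, h5, h6⟩

end

/-- a monic divisor of a product of different linear factors -/
theorem eq_prod {N : ℕ} {p : ℂ[X]} {a : Fin N → ℂ} (ha : Function.Injective a) (hp : p.Monic)
    (hd : p ∣ nod a) (J : Finset (Fin N)) (hJ : ∀ j, p.eval (a j) = 0 ↔ j ∈ J) :
    p = ∏ j ∈ J, (X - C (a j)) := by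
  classical
  have h1 : ∏ j ∈ J, (X - C (a j)) ∣ p := by
    refine Finset.prod_dvd_of_coprime ?_ fun j hj => dvd_iff_isRoot.2 ((hJ j).2 hj)
    intro i _ j _ hij
    exact isCoprime_X_sub_C_of_isUnit_sub (sub_ne_zero.2 fun h => hij (ha h)).isUnit
  have h2 : p ∣ ∏ j ∈ J, (X - C (a j)) := by
    have h3 : nod a = (∏ j ∈ Jᶜ, (X - C (a j))) * ∏ j ∈ J, (X - C (a j)) := by
      rw [nod, mul_comm, Finset.prod_mul_prod_compl]
    rw [h3] at hd
    refine IsCoprime.dvd_of_dvd_mul_left ?_ hd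
    refine IsCoprime.prod_right fun j hj => IsCoprime.symm ?_
    rw [(irreducible_X_sub_C (a j)).coprime_iff_not_dvd, dvd_iff_isRoot, IsRoot]
    intro h
    exact (Finset.mem_compl.1 hj) ((hJ j).1 h)
  exact eq_of_monic_of_associated hp (monic_prod_of_monic _ _ fun j _ => monic_X_sub_C _)
    (associated_of_dvd_dvd h2 h1)

/-- the roots of a component form a part of the families of roots -/
theorem fam_ind {N : ℕ} {Q Γ : ℂ[X][X]} {T : ℂ → ℂ} {a : Fin N → ℂ → ℂ} (P : Par N Q T a)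
    (j : Fin N) : (∀ᶠ u in 𝓝[≠] (0 : ℂ), ev2 Γ (T u) (a j u) = 0) ∨
      ∀ᶠ u in 𝓝[≠] (0 : ℂ), ev2 Γ (T u) (a j u) ≠ 0 :=
  (mero_ev2 Γ P.hT (P.ha j)).eventually_eq_zero_or_eventually_ne_zero

/-- every point of a component is on a family of its roots -/
theorem fam {N : ℕ} {Q Γ : ℂ[X][X]} {T : ℂ → ℂ} {a : Fin N → ℂ → ℂ} (P : Par N Q T a)
    (hT : AnalyticAt ℂ T 0) (ha : ∀ j, AnalyticAt ℂ (a j) 0) (hΓ : Γ.Monic) (hd : Γ ∣ Q) {ξ : ℂ}
    (h0 : ev2 Γ (T 0) ξ = 0) :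
    ∃ j, a j 0 = ξ ∧ ∀ᶠ u in 𝓝[≠] (0 : ℂ), ev2 Γ (T u) (a j u) = 0 := by
  classical
  set J : Finset (Fin N) := univ.filter fun j => ∀ᶠ u in 𝓝[≠] (0 : ℂ), ev2 Γ (T u) (a j u) = 0
    with hJ
  have h1 : ∀ᶠ u in 𝓝[≠] (0 : ℂ), ∀ j, ev2 Γ (T u) (a j u) = 0 ↔ j ∈ J := by
    rw [eventually_all]
    intro j
    rcases fam_ind (Γ := Γ) P j with h | h
    · have hj : j ∈ J := by rw [hJ, mem_filter]; exact ⟨mem_univ j, h⟩
      exact h.mono fun u hu => ⟨fun _ => hj, fun _ => hu⟩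
    · have hj : j ∉ J := by
        rw [hJ, mem_filter]
        rintro ⟨-, h'⟩
        obtain ⟨u, hu1, hu2⟩ := (h.and h').exists
        exact hu1 hu2
      exact h.mono fun u hu => ⟨fun h' => absurd h' hu, fun h' => absurd h' hj⟩
  have h2 : ∀ᶠ u in 𝓝[≠] (0 : ℂ), ev2 Γ (T u) ξ = ∏ j ∈ J, (ξ - a j u) := by
    filter_upwards [h1, P.root, P.inj] with u hu hr hi
    have hdv : evt (T u) Γ ∣ nod fun j => a j u := by
      rw [← hr]
      exact map_dvd (evt (T u)) hd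
    have h3 := eq_prod hi (evt_monic hΓ (T u)) hdv J hu
    rw [ev2, h3, eval_prod]
    exact Finset.prod_congr rfl fun j _ => by rw [eval_sub, eval_X, eval_C]
  have h3 : Tendsto (fun u => ev2 Γ (T u) ξ) (𝓝[≠] 0) (𝓝 (ev2 Γ (T 0) ξ)) :=
    (hasDerivAt_ev2 Γ hT.differentiableAt.hasDerivAt
      (hasDerivAt_const (0 : ℂ) ξ)).continuousAt.tendsto.mono_left nhdsWithin_le_nhds
  have h4 : Tendsto (fun u => ∏ j ∈ J, (ξ - a j u)) (𝓝[≠] 0) (𝓝 (∏ j ∈ J, (ξ - a j 0))) :=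
    tendsto_finsetProd _ fun j _ => tendsto_const_nhds.sub
      ((ha j).continuousAt.tendsto.mono_left nhdsWithin_le_nhds)
  have h5 := tendsto_nhds_unique (h3.congr' h2) h4
  rw [h0, eq_comm, Finset.prod_eq_zero_iff] at h5
  obtain ⟨j, hj, hj0⟩ := h5
  rw [hJ, mem_filter] at hj
  exact ⟨j, (sub_eq_zero.1 hj0).symm, hj.2⟩

end Pool.Agent.H941.NC
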