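import Pool.Agent.H941.NC.Start
import Pool.Agent.H941.NC.Count
import Pool.Agent.H941.SC.Liou

set_option autoImplicit false
set_option linter.unusedSectionVars false
set_option linter.unusedVariables false

/-! # Vector fields tangent to a curve with simple normal crossings -/

namespace Pool.Agent.H941.NC

open Polynomial Finset Filter Topology Metric Pool.Agent.Helper748.TP Pool.Agent.H941.TF
  Pool.Agent.H941.SC

/-- the roots of a component near infinity -/
theorem inf_dich {Φ Ψ Φi Ψi : ℂ[X][X]} {e n : ℕ} (iΦ : Inf Φ Φi e) (iΨ : Inf Ψ Ψi n)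
    (hs : (evt 0 (Φi * Ψi)).Separable) {X : ℂ → ℂ} (hX : AnalyticAt ℂ X 0)
    (hr : ∀ᶠ u in 𝓝 (0 : ℂ), ev2 (Φi * Ψi) u (X u) = 0) :
    ((∀ᶠ u in 𝓝[≠] (0 : ℂ), ev2 Φ u⁻¹ (X u / u) = 0) ∧ ev2 Φi 0 (X 0) = 0 ∧
      ev2 Ψi 0 (X 0) ≠ 0) ∨ ∀ᶠ u in 𝓝[≠] (0 : ℂ), ev2 Φ u⁻¹ (X u / u) ≠ 0 := by
  by_cases h1 : ev2 Φi 0 (X 0) = 0
  · left
    have h2 : ev2 Ψi 0 (X 0) ≠ 0 := by
      have h3 := hs
      rw [map_mul] at h3
      exact sep_ne h3 h1
    refine ⟨?_, h1, h2⟩
    have h3 : ∀ᶠ u in 𝓝 (0 : ℂ), ev2 Ψi u (X u) ≠ 0 := (cont_ev2' Ψi hX).eventually_ne h2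
    filter_upwards [hr.filter_mono nhdsWithin_le_nhds, h3.filter_mono nhdsWithin_le_nhds, ev_ne]
      with u e1 e2 e3
    rw [ev2_mul] at e1
    have e4 := (mul_eq_zero.1 e1).resolve_right e2
    rw [iΦ.rel u _ e3] at e4
    exact (mul_eq_zero.1 e4).resolve_left (pow_ne_zero _ e3)
  · right
    have h3 : ∀ᶠ u in 𝓝 (0 : ℂ), ev2 Φi u (X u) ≠ 0 := (cont_ev2' Φi hX).eventually_ne h1
    filter_upwards [h3.filter_mono nhdsWithin_le_nhds, ev_ne] with u e2 e3
    rw [iΦ.rel u _ e3] at e2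
    exact right_ne_zero_of_mul e2

variable {ι : Type} [Fintype ι] [DecidableEq ι]

/-- a tangent vector field near a point -/
theorem Snc.locR {Φ : ι → ℂ[X][X]} {B : Finset ℂ} (S : Snc Φ B) {a6 c6 : ℂ[X][X]}
    (htan : ∀ i, Φ i ∣ dt (Φ i) * a6 + derivative (Φ i) * c6) {i : ι} {t x : ℂ}
    (hi : ev2 (Φ i) t x = 0) : ∃ g A' C', ev2 g t x ≠ 0 ∧
      Φ i ∣ g * a6 - A' * ∏ l ∈ univ.erase i, Φ l ∧
      Φ i ∣ g * c6 - C' * ∏ l ∈ univ.erase i, Φ l := by
  by_cases hex : ∃ j, j ≠ i ∧ ev2 (Φ j) t x = 0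
  · obtain ⟨j, hji, hj⟩ := hex
    have e1 := ev2_dvd (htan i) hi
    have e2 := ev2_dvd (htan j) hj
    rw [ev2_add, ev2_mul, ev2_mul] at e1 e2
    have hJ := S.trans i j hji.symm t x hi hj
    have ha : ev2 a6 t x = 0 := by
      refine (mul_eq_zero.1 ?_).resolve_left hJ
      linear_combination ev2 (derivative (Φ j)) t x * e1 - ev2 (derivative (Φ i)) t x * e2
    have hc : ev2 c6 t x = 0 := by
      refine (mul_eq_zero.1 ?_).resolve_left hJ
      linear_combination ev2 (dt (Φ i)) t x * e2 - ev2 (dt (Φ j)) t x * e1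
    obtain ⟨A1, B1, h1, a1, b1⟩ := dec' (Φ i) t x hi
    obtain ⟨A2, B2, h2, a2, b2⟩ := dec' (Φ j) t x hj
    obtain ⟨A3, B3, h3, -, -⟩ := dec' a6 t x ha
    obtain ⟨A4, B4, h4, -, -⟩ := dec' c6 t x hc
    set R := ∏ l ∈ (univ.erase i).erase j, Φ l with hR
    have hR0 : ev2 R t x ≠ 0 := by
      rw [hR, ev2_prod]
      refine Finset.prod_ne_zero_iff.2 fun l hl => ?_
      rw [mem_erase, mem_erase] at hl
      exact S.two i j l hji.symm hl.2.1 hl.1 t x hi hj
    have hRj : ∏ l ∈ univ.erase i, Φ l = Φ j * R :=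
      (Finset.mul_prod_erase (univ.erase i) Φ (mem_erase.2 ⟨hji, mem_univ j⟩)).symm
    refine ⟨(A1 * B2 - B1 * A2) * R, A1 * B3 - B1 * A3, A1 * B4 - B1 * A4, ?_, ?_, ?_⟩
    · rw [ev2_mul, ev2_sub, ev2_mul, ev2_mul]
      refine mul_ne_zero ?_ hR0
      rw [a1, b1, a2, b2] at hJ
      exact hJ
    · rw [hRj]
      refine ⟨R * (B2 * A3 - A2 * B3), ?_⟩
      rw [h3, h1, h2]
      ring
    · rw [hRj]
      refine ⟨R * (B2 * A4 - A2 * B4), ?_⟩
      rw [h4, h1, h2]
      ring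
  · push Not at hex
    refine ⟨∏ l ∈ univ.erase i, Φ l, a6, c6, ?_, ⟨0, by ring⟩, ⟨0, by ring⟩⟩
    rw [ev2_prod]
    exact Finset.prod_ne_zero_iff.2 fun l hl => hex l (mem_erase.1 hl).1

/-- **Tangent vector fields.** -/
theorem Snc.field {Φ : ι → ℂ[X][X]} {Ψ Φi Ψi : ℂ[X][X]} {D0 : ℂ[X]} {e n : ℕ}
    (S : Snc Φ D0.roots.toFinset) (he : 4 ≤ e)
    (hD0 : D0 ≠ 0) {α β : ℂ[X][X]} (hQm : ((∏ i, Φ i) * Ψ).Monic)
    (hQN : ((∏ i, Φ i) * Ψ).natDegree = e + n)
    (hαβ : C D0 = α * ((∏ i, Φ i) * Ψ) + β * derivative ((∏ i, Φ i) * Ψ))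
    (iΦ : Inf (∏ i, Φ i) Φi e) (iΨ : Inf Ψ Ψi n) (hs : (evt 0 (Φi * Ψi)).Separable)
    (hpar : ∀ b, ∃ (m : ℕ) (a : Fin (e + n) → ℂ → ℂ), 0 < m ∧ (∀ j, AnalyticAt ℂ (a j) 0) ∧
      Par (e + n) ((∏ i, Φ i) * Ψ) (fun u => b + u ^ m) a)
    {a6 c6 : ℂ[X][X]} (htan : ∀ i, Φ i ∣ dt (Φ i) * a6 + derivative (Φ i) * c6)
    (TA : TD 2 a6) : ∀ t ∉ D0.roots.toFinset, ∀ x, ev2 (∏ i, Φ i) t x = 0 → ev2 a6 t x = 0 := by
  classical
  set F := ∏ i, Φ i with hF
  have hB : ∀ t ∉ D0.roots.toFinset, D0.eval t ≠ 0 := by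
    intro t ht h
    rw [Multiset.mem_toFinset, mem_roots hD0] at ht
    exact ht h
  have hFx : ∀ t ∉ D0.roots.toFinset, ∀ x, ev2 F t x = 0 → ev2 (derivative F) t x ≠ 0 := by
    intro t ht x h0
    have := sep_der (S.sep t ht) h0
    rwa [← evt_der] at this
  have hiF : ∀ i t x, ev2 (Φ i) t x = 0 → ev2 F t x = 0 := by
    intro i t x h
    rw [hF, ev2_prod]
    exact Finset.prod_eq_zero (mem_univ i) h
  have hder : ∀ i t x, ev2 (Φ i) t x = 0 → ev2 (derivative F) t x =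
      ev2 (derivative (Φ i)) t x * ev2 (∏ l ∈ univ.erase i, Φ l) t x := by
    intro i t x h
    rw [hF, prod_erase Φ i, derivative_mul, ev2_add, ev2_mul, ev2_mul (Φ i), h, zero_mul, add_zero]
  set v : ℂ → ℂ → ℂ := fun t x => if ev2 F t x = 0 then ev2 a6 t x / ev2 (derivative F) t x else 0
    with hv
  have hvan := van (v := v) hQm hQN hαβ hB (fun t ht a ha h => by
    have hid : HasDerivAt (fun u : ℂ => u) 1 t := hasDerivAt_id' t
    have hd : ∀ P : ℂ[X][X], DifferentiableAt ℂ (fun u => ev2 P u (a u)) t := fun P =>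
      (hasDerivAt_ev2 P hid ha.hasDerivAt).differentiableAt
    by_cases h1 : ev2 F t (a t) = 0
    · have hΨ0 : ev2 Ψ t (a t) ≠ 0 := by
        have h2 := sep_of_disc hαβ (hB t ht)
        rw [map_mul] at h2
        exact sep_ne h2 h1
      have h3 : ∀ᶠ s in 𝓝 t, ev2 Ψ s (a s) ≠ 0 := (hd Ψ).continuousAt.eventually_ne hΨ0
      have h4 : (fun s => v s (a s)) =ᶠ[𝓝 t] fun s => ev2 a6 s (a s) / ev2 (derivative F) s (a s) := by
        filter_upwards [h, h3] with s e1 e2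
        rw [ev2_mul] at e1
        simp only [hv, if_pos ((mul_eq_zero.1 e1).resolve_right e2)]
      exact ((hd a6).fun_div (hd _) (hFx t ht _ h1)).congr_of_eventuallyEq h4
    · have h3 : ∀ᶠ s in 𝓝 t, ev2 F s (a s) ≠ 0 := (hd F).continuousAt.eventually_ne h1
      have h4 : (fun s => v s (a s)) =ᶠ[𝓝 t] fun _ => 0 := by
        filter_upwards [h3] with s e1
        simp only [hv, if_neg e1]
      exact (differentiableAt_const _).congr_of_eventuallyEq h4)
    (fun b hb => by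
      obtain ⟨m, a, hm, ha, P⟩ := hpar b
      refine ⟨m, a, hm, P, fun j => ?_⟩
      have hT : AnalyticAt ℂ (fun u : ℂ => b + u ^ m) 0 := by fun_prop
      have hT0 : b + (0 : ℂ) ^ m = b := by rw [zero_pow hm.ne', add_zero]
      have htd : ∀ P, Tendsto (fun u => ev2 P (b + u ^ m) (a j u)) (𝓝[≠] 0)
          (𝓝 (ev2 P b (a j 0))) := fun P => tendP P b hm (ha j)
      rcases fam_ind (Γ := F) P j with h1 | h1
      · obtain ⟨i, hi⟩ : ∃ i, ∀ᶠ u in 𝓝[≠] (0 : ℂ), ev2 (Φ i) (b + u ^ m) (a j u) = 0 := by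
          by_contra hcon
          have hcon' : ∀ i, ¬ ∀ᶠ u in 𝓝[≠] (0 : ℂ), ev2 (Φ i) (b + u ^ m) (a j u) = 0 :=
            fun i h => hcon ⟨i, h⟩
          have h2 : ∀ i, ∀ᶠ u in 𝓝[≠] (0 : ℂ), ev2 (Φ i) (b + u ^ m) (a j u) ≠ 0 := by
            intro i
            rcases fam_ind (Γ := Φ i) P j with h3 | h3
            · exact absurd h3 (hcon' i)
            · exact h3
          obtain ⟨u, h3, h4⟩ := (h1.and (eventually_all.2 h2)).exists
          rw [hF, ev2_prod, Finset.prod_eq_zero_iff] at h3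
          obtain ⟨i, -, h5⟩ := h3
          exact h4 i h5
        have hp : ev2 (Φ i) b (a j 0) = 0 :=
          tendsto_nhds_unique (htd (Φ i)) (tendsto_const_nhds.congr' (hi.mono fun u hu => hu.symm))
        obtain ⟨g, A', C', hg, hA', hC'⟩ := S.locR htan hp
        have hBu := ev_notin D0.roots.toFinset b hm
        by_cases hx : ev2 (derivative (Φ i)) b (a j 0) = 0
        · have ht : ev2 (dt (Φ i)) b (a j 0) ≠ 0 := fun h => S.smooth i b _ hp h hx
          refine ⟨_, (((htd C').div ((htd g).mul (htd (dt (Φ i)))) (mul_ne_zero hg ht)).neg).congr' ?_⟩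
          filter_upwards [hi, hBu, (htd g).eventually_ne hg, (htd (dt (Φ i))).eventually_ne ht]
            with u k1 k2 k3 k4
          have k5 := hder i _ _ k1
          have k6 := hFx _ k2 _ (hiF i _ _ k1)
          rw [k5] at k6
          have k7 := ev2_dvd hC' k1
          have k8 := ev2_dvd (htan i) k1
          rw [ev2_sub, ev2_mul, ev2_mul] at k7
          rw [ev2_add, ev2_mul, ev2_mul] at k8
          simp only [hv, if_pos (hiF i _ _ k1), k5]
          change -(ev2 C' _ _ / (ev2 g _ _ * ev2 (dt (Φ i)) _ _)) = _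
          rw [neg_eq_iff_eq_neg, div_eq_iff (mul_ne_zero k3 k4), eq_comm, ← neg_div,
            div_mul_eq_mul_div, div_eq_iff k6]
          linear_combination (-(ev2 g (b + u ^ m) (a j u))) * k8 +
            ev2 (derivative (Φ i)) (b + u ^ m) (a j u) * k7
        · refine ⟨_, (((htd A').div ((htd g).mul (htd (derivative (Φ i)))) (mul_ne_zero hg hx))).congr' ?_⟩
          filter_upwards [hi, hBu, (htd g).eventually_ne hg,
            (htd (derivative (Φ i))).eventually_ne hx] with u k1 k2 k3 k4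
          have k5 := hder i _ _ k1
          have k6 := hFx _ k2 _ (hiF i _ _ k1)
          rw [k5] at k6
          have k7 := ev2_dvd hA' k1
          rw [ev2_sub, ev2_mul, ev2_mul] at k7
          simp only [hv, if_pos (hiF i _ _ k1), k5]
          change (ev2 A' _ _ / (ev2 g _ _ * ev2 (derivative (Φ i)) _ _)) = _
          rw [div_eq_iff (mul_ne_zero k3 k4), eq_comm, div_mul_eq_mul_div, div_eq_iff k6]
          linear_combination ev2 (derivative (Φ i)) (b + u ^ m) (a j u) * k7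
      · refine ⟨0, tendsto_const_nhds.congr' ?_⟩
        filter_upwards [h1] with u hu
        simp only [hv, if_neg hu])
    (by
      have iQ : Inf (F * Ψ) (Φi * Ψi) (e + n) := iΦ.mul iΨ
      obtain ⟨X', hX, hX0, hXr, P⟩ := iQ.par hQm hQN (by omega) hs
      refine ⟨X', P, fun j => ?_⟩
      have hXroot : ∀ᶠ u in 𝓝 (0 : ℂ), ev2 (Φi * Ψi) u (X' j u) = 0 := by
        filter_upwards [hXr] with u hu
        rw [ev2, hu]
        exact eval_nod (x := fun j => X' j u) j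
      rcases inf_dich iΦ iΨ hs (hX j) hXroot with ⟨h1, h2, h3⟩ | h1
      · have hsΦ : (evt 0 Φi).Separable := by
          have h := hs
          rw [map_mul] at h
          exact h.of_mul_left
        have n1 : ev2 (derivative Φi) 0 (X' j 0) ≠ 0 := by
          have := sep_der hsΦ h2
          rwa [← evt_der] at this
        have t2 := iΦ.lim' (hX j)
        obtain ⟨l, hl⟩ := TA.lim (X := X' j)
          ((hX j).continuousAt.tendsto.mono_left (nhdsWithin_le_nhds (s := {0}ᶜ)))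
        obtain ⟨k, hk⟩ := Nat.exists_eq_add_of_le he
        have hu : Tendsto (fun u : ℂ => u ^ (k + 1)) (𝓝[≠] 0) (𝓝 0) := by
          have := ((continuous_pow (k + 1)).tendsto (0 : ℂ)).mono_left
            (nhdsWithin_le_nhds (s := {0}ᶜ))
          rwa [zero_pow (Nat.succ_ne_zero _)] at this
        have h4 := hu.mul (hl.div t2 n1)
        rw [zero_mul] at h4
        refine h4.congr' ?_
        filter_upwards [h1, ev_ne, t2.eventually_ne n1] with u k1 k2 k3
        simp only [hv, if_pos k1]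
        change u ^ (k + 1) * (u ^ (2 : ℤ) * _ / (u ^ ((e : ℤ) - 1) * _)) = _
        have k4 := right_ne_zero_of_mul k3
        have k5 : u ^ ((e : ℤ) - 1) = u ^ (k + 1) * u ^ (2 : ℤ) := by
          rw [hk, ← zpow_natCast, ← zpow_add₀ k2]
          congr 1
          push_cast
          ring
        rw [k5]
        field_simp
      · refine tendsto_const_nhds.congr' ?_
        filter_upwards [h1] with u hu
        simp only [hv, if_neg hu])
  intro t ht x hx
  have h1 := hvan t ht x (by rw [ev2_mul, hx, zero_mul])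
  simp only [hv, if_pos hx] at h1
  exact (div_eq_zero_iff.1 h1).resolve_right (hFx t ht x hx)

end Pool.Agent.H941.NC
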