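import Pool.Agent.H941.NC.Step
import Pool.Agent.H941.SC.Main

set_option autoImplicit false
set_option linter.unusedSectionVars false
set_option linter.unusedVariables false

/-! # There is no primitive -/

namespace Pool.Agent.H941.NC

open Polynomial Finset Filter Topology Metric Pool.Agent.Helper748.TP Pool.Agent.H941.TF
  Pool.Agent.H941.SC

theorem Inf_one : Inf (1 : ℂ[X][X]) 1 0 := by
  refine ⟨monic_one, natDegree_one, fun u x hu => ?_⟩
  rw [ev2, ev2, map_one, map_one, eval_one, eval_one, pow_zero, one_mul]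

theorem Inf_prod {κ : Type} [DecidableEq κ] (s : Finset κ) {Φ Φi : κ → ℂ[X][X]} {n : κ → ℕ}
    (h : ∀ i, Inf (Φ i) (Φi i) (n i)) :
    Inf (∏ i ∈ s, Φ i) (∏ i ∈ s, Φi i) (∑ i ∈ s, n i) := by
  induction s using Finset.induction_on with
  | empty => exact Inf_one
  | insert a s ha ih =>
    rw [prod_insert ha, prod_insert ha, sum_insert ha]
    exact (h a).mul ih

section
variable {ι : Type} [Fintype ι] [DecidableEq ι] {Φ : ι → ℂ[X][X]}
  {Ψ Φi Ψi hxQ htQ γ' V p r q : ℂ[X][X]} {D0 d : ℂ[X]} {σ : ℝ} {e n : ℕ}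

/-- the end of the proof -/
theorem endgame (S : Snc Φ D0.roots.toFinset) (he : 4 ≤ e) (hσ : σ < 0) (hD0 : D0 ≠ 0)
    {α β : ℂ[X][X]} (hαβ : C D0 = α * ((∏ i, Φ i) * Ψ) + β * derivative ((∏ i, Φ i) * Ψ))
    (hFd : (∏ i, Φ i).natDegree = e)
    (TQ : TD ((e + n : ℕ) : ℤ) ((∏ i, Φ i) * Ψ))
    (iΦ : Inf (∏ i, Φ i) Φi e) (iΨ : Inf Ψ Ψi n) (hsi : (evt 0 (Φi * Ψi)).Separable)
    (D : Dat (e + n) ((∏ i, Φ i) * Ψ) γ' hxQ htQ σ V d p r q) {M : ℕ}
    (hγ : γ' ∣ ((∏ i, Φ i) * Ψ) ^ M)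
    (hhc : (kc (σ : ℂ) * hxQ).coeff (e + n - 1) = -3)
    (TH : TD (((e + n : ℕ) : ℤ) - 1) (kc (σ : ℂ) * hxQ))
    {p1 ρ Z : ℂ[X][X]} (hp1 : p1.natDegree ≤ e + n - 2)
    (hρ : ρ.natDegree ≤ e + n + 1) (TP : TD (((e + n : ℕ) : ℤ) + 2) p1) (TZ : TD 3 Z)
    (E : EE ((∏ i, Φ i) * Ψ) (kc (σ : ℂ) * hxQ) (kc (σ : ℂ) * htQ) p1 ρ)
    (hall : ∀ t ∉ D0.roots.toFinset, ∀ x, ev2 ((∏ i, Φ i) * Ψ) t x = 0 →
      ev2 (p1 - kc (σ : ℂ) * hxQ * Z) t x = 0) : False := by
  classical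
  have hN2 : 2 ≤ e + n := by omega
  have hi := integ (σ : ℂ) D.γ0 D.hxE D.htE
  have hhd : (kc (σ : ℂ) * hxQ).natDegree ≤ e + n - 1 := (natDegree_C_mul_le _ _).trans D.hxd
  have hld : (kc (σ : ℂ) * htQ).natDegree ≤ e + n - 1 := (natDegree_C_mul_le _ _).trans D.htd
  have hQm := D.monic
  have hQN := D.deg
  have hB : ∀ t ∉ D0.roots.toFinset, D0.eval t ≠ 0 := by
    intro t ht h
    rw [Multiset.mem_toFinset, mem_roots hD0] at ht
    exact ht h
  have hsep : ∀ t ∉ D0.roots.toFinset, (evt t ((∏ i, Φ i) * Ψ)).Separable := fun t ht =>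
    sep_of_disc hαβ (hB t ht)
  have hhne : ∀ t ∉ D0.roots.toFinset, ∀ x, ev2 ((∏ i, Φ i) * Ψ) t x = 0 →
      ev2 (kc (σ : ℂ) * hxQ) t x ≠ 0 := fun t ht x h0 => hneQ D hγ hσ (hsep t ht) h0
  have hrel : ∀ t ∉ D0.roots.toFinset, ∀ x, ev2 ((∏ i, Φ i) * Ψ) t x = 0 →
      ev2 (kc (σ : ℂ) * htQ) t x * ev2 p1 t x + ev2 (kc (σ : ℂ) * hxQ) t x * ev2 ρ t x = 0 :=
    fun t ht x h0 => relQ D hγ hσ (hsep t ht) h0 E
  have htanQ : ∀ t ∉ D0.roots.toFinset, ∀ x, ev2 ((∏ i, Φ i) * Ψ) t x = 0 → ∀ a c : ℂ,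
      ev2 (kc (σ : ℂ) * htQ) t x * a + ev2 (kc (σ : ℂ) * hxQ) t x * c = 0 →
      ev2 (dt ((∏ i, Φ i) * Ψ)) t x * a + ev2 (derivative ((∏ i, Φ i) * Ψ)) t x * c = 0 :=
    fun t ht x h0 a c h => tanQ D hγ hσ (hsep t ht) h0 h
  have iQ : Inf ((∏ i, Φ i) * Ψ) (Φi * Ψi) (e + n) := iΦ.mul iΨ
  obtain ⟨X', hX, hX0, hXr, PX⟩ := iQ.par hQm hQN (by omega) hsi
  have hpar : ∀ b, ∃ (m : ℕ) (a : Fin (e + n) → ℂ → ℂ), 0 < m ∧ (∀ j, AnalyticAt ℂ (a j) 0) ∧
      Par (e + n) ((∏ i, Φ i) * Ψ) (fun u => b + u ^ m) a := by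
    intro b
    obtain ⟨m, a, L, hm, ha, P, -⟩ := fin_pt2 D hN2 hσ hγ hD0 hαβ b
    exact ⟨m, a, hm, ha, P⟩
  set h := kc (σ : ℂ) * hxQ with hh
  set l := kc (σ : ℂ) * htQ with hl
  set F := ∏ i, Φ i with hF
  set Q := F * Ψ with hQd
  have hFm : F.Monic := monic_prod_of_monic _ _ fun i _ => S.monic i
  have hQNc : Q.coeff (e + n) = 1 := by rw [← hQN]; exact hQm
  obtain ⟨w1, hw1⟩ : Q ∣ p1 - h * Z := dvd_of_ev hQm (B := D0.roots.toFinset) fun t ht =>
    ⟨hsep t ht, hall t ht⟩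
  obtain ⟨w2, hw2⟩ : Q ∣ ρ + l * Z := dvd_of_ev hQm (B := D0.roots.toFinset) fun t ht =>
    ⟨hsep t ht, fun x h0 => by
      have h1 := hrel t ht x h0
      have h2 := hall t ht x h0
      have h3 := hhne t ht x h0
      rw [ev2_sub, ev2_mul h] at h2
      rw [ev2_add, ev2_mul l]
      refine (mul_eq_zero.1 ?_).resolve_left h3
      linear_combination h1 - ev2 l t x * h2⟩
  set a6 := w1 - derivative Z with ha6
  set c6 := w2 + dt Z with hc6
  have h1 : p1 - (Q * derivative Z + h * Z) = Q * a6 := by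
    rw [ha6]
    linear_combination hw1
  have h2 : ρ + (Q * dt Z + l * Z) = Q * c6 := by
    rw [hc6]
    linear_combination hw2
  have hQc : ∀ w : ℂ[X][X], w ≠ 0 → (Q * w).natDegree = e + n + w.natDegree := by
    intro w hw
    rw [hQm.natDegree_mul' hw, hQN]
  have hFc : ∀ w : ℂ[X][X], w ≠ 0 → (F * w).natDegree = e + w.natDegree := by
    intro w hw
    rw [hFm.natDegree_mul' hw, hFd]
  have hZ3 : Z.natDegree ≤ 3 := TZ.natDegree
  have ha6d : a6.natDegree ≤ 1 := by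
    by_cases ha : a6 = 0
    · rw [ha, natDegree_zero]; omega
    have h3 := deg_op (Q := Q) (g := h) (R := Z) hQN.le (by omega) hhd hZ3
    have h4 := lead_op (Q := Q) (g := h) (R := Z) hQN.le hQNc (by omega) hhd hhc hZ3
    have h5 : (Q * derivative Z + h * Z).coeff (e + n + 1 + 1) = 0 := by
      rw [(by omega : e + n + 1 + 1 = e + n - 1 + 3), h4]
      push_cast
      ring
    have h6 := natDegree_le_pred (n := e + n + 1) (by omega) h5
    have h7 : (Q * a6).natDegree ≤ e + n + 1 := by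
      rw [← h1]
      exact (natDegree_sub_le _ _).trans (max_le (by omega) h6)
    rw [hQc _ ha] at h7
    omega
  have hdt : (dt Z).natDegree ≤ 2 := by
    rw [natDegree_le_iff_coeff_eq_zero]
    intro k hk
    rw [coeff_dt]
    have h3 : Z.coeff k = C ((Z.coeff k).coeff 0) := by
      ext j
      rw [coeff_C]
      split_ifs with h4
      · rw [h4]
      · exact TZ k j (by omega)
    rw [h3, derivative_C]
  have hc6d : c6.natDegree ≤ 2 := by
    by_cases hc : c6 = 0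
    · rw [hc, natDegree_zero]; omega
    have hR : (Q * c6).natDegree ≤ e + n + 2 := by
      rw [← h2]
      refine (natDegree_add_le _ _).trans (max_le (by omega) ((natDegree_add_le _ _).trans
        (max_le ?_ ?_)))
      · exact natDegree_mul_le.trans (by omega)
      · exact natDegree_mul_le.trans (by omega)
    rw [hQc _ hc] at hR
    omega
  -- the growth of `a6`
  have TA : TD (((e + n : ℕ) : ℤ) + 1) (derivative (Q * a6)) := by
    have h3 : TD (((e + n : ℕ) : ℤ) + 2) (Q * a6) := by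
      rw [← h1]
      refine TP.sub (TD.add ?_ ?_)
      · exact (TQ.mul TZ.der).mono (by omega)
      · exact (TH.mul TZ).mono (by omega)
    exact h3.der.mono (by omega)
  have hXroot : ∀ j, ∀ᶠ u in 𝓝 (0 : ℂ), ev2 (Φi * Ψi) u (X' j u) = 0 := by
    intro j
    filter_upwards [hXr] with u hu
    rw [ev2, hu]
    exact eval_nod (x := fun j => X' j u) j
  have TA2 : TD 2 a6 := by
    refine TD_of_lim (fun j => (hX j).continuousAt.tendsto.mono_left nhdsWithin_le_nhds) hX0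
      (lt_of_le' (by omega) (ha6d.trans (by omega))) fun j => ?_
    have h0 : ev2 (Φi * Ψi) 0 (X' j 0) = 0 := (hXroot j).self_of_nhds
    have n1 : ev2 (derivative (Φi * Ψi)) 0 (X' j 0) ≠ 0 := by
      have := sep_der hsi h0
      rwa [← evt_der] at this
    have t1 := iQ.lim' (hX j)
    obtain ⟨l', hl'⟩ := TA.lim ((hX j).continuousAt.tendsto.mono_left
      (nhdsWithin_le_nhds (s := {0}ᶜ)))
    refine ⟨_, (hl'.div t1 n1).congr' ?_⟩
    filter_upwards [(hXroot j).filter_mono nhdsWithin_le_nhds, ev_ne, t1.eventually_ne n1]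
      with u k1 k2 k3
    rw [iQ.rel u _ k2] at k1
    have k4 := (mul_eq_zero.1 k1).resolve_left (pow_ne_zero _ k2)
    have k5 : ev2 (derivative (Q * a6)) u⁻¹ (X' j u / u) =
        ev2 (derivative Q) u⁻¹ (X' j u / u) * ev2 a6 u⁻¹ (X' j u / u) := by
      rw [derivative_mul, ev2_add, ev2_mul, ev2_mul, k4, zero_mul, add_zero]
    have k6 := right_ne_zero_of_mul k3
    have k7 := left_ne_zero_of_mul k3
    change u ^ (((e + n : ℕ) : ℤ) + 1) * _ / (u ^ (((e + n : ℕ) : ℤ) - 1) * _) = _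
    rw [k5, show (((e + n : ℕ) : ℤ) + 1) = (((e + n : ℕ) : ℤ) - 1) + 2 by ring, zpow_add₀ k2]
    have k8 : ∀ A B w1 w2 : ℂ, A ≠ 0 → w1 ≠ 0 → w1 * w2 * (A * B) / (w1 * A) = w2 * B := by
      intro A B w1 w2 i1 i2
      field_simp
    exact k8 _ _ _ _ k6 k7
  -- the equation
  have E2 := E.gauge hi Z
  rw [h1, h2, EE] at E2
  have h3 : Q = Q * (dt a6 + derivative c6) + l * a6 + h * c6 := by
    refine mul_left_cancel₀ hQm.ne_zero ?_
    rw [dt_mul, derivative_mul] at E2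
    linear_combination E2
  have hlin : ∀ t x, ev2 Q t x = 0 → ev2 l t x * ev2 a6 t x + ev2 h t x * ev2 c6 t x = 0 := by
    intro t x h0
    have h4 := congrArg (fun P => ev2 P t x) h3
    beta_reduce at h4
    rw [ev2_add, ev2_add, ev2_mul Q, h0, ev2_mul l, ev2_mul h] at h4
    linear_combination -h4
  have hiQ : ∀ i, Φ i ∣ Q := fun i => (Finset.dvd_prod_of_mem Φ (mem_univ i)).trans ⟨Ψ, rfl⟩
  have hsepi : ∀ i, ∀ t ∉ D0.roots.toFinset, (evt t (Φ i)).Separable := fun i t ht =>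
    (hsep t ht).of_dvd (map_dvd (evt t) (hiQ i))
  have htan : ∀ i, Φ i ∣ dt (Φ i) * a6 + derivative (Φ i) * c6 := by
    intro i
    refine dvd_of_ev (S.monic i) (B := D0.roots.toFinset) fun t ht => ⟨hsepi i t ht, fun x h0 => ?_⟩
    obtain ⟨R, hR⟩ := hiQ i
    have h4 : ev2 Q t x = 0 := ev2_dvd (hiQ i) h0
    have h5 := htanQ t ht x h4 _ _ (hlin t x h4)
    have hR0 : ev2 R t x ≠ 0 := by
      have h6 := hsep t ht
      rw [hR, map_mul] at h6
      exact sep_ne h6 h0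
    rw [hR, dt_mul, derivative_mul, ev2_add, ev2_add, ev2_mul, ev2_mul, ev2_mul, ev2_mul,
      h0] at h5
    rw [ev2_add, ev2_mul, ev2_mul]
    refine (mul_eq_zero.1 ?_).resolve_left hR0
    linear_combination h5
  have hv := S.field he hD0 hQm hQN hαβ iΦ iΨ hsi hpar htan TA2
  have hFsep : ∀ t ∉ D0.roots.toFinset, (evt t F).Separable := fun t ht =>
    (hsep t ht).of_dvd (map_dvd (evt t) ⟨Ψ, rfl⟩)
  have ha60 : a6 = 0 := by
    obtain ⟨w, hw⟩ : F ∣ a6 := dvd_of_ev hFm (B := D0.roots.toFinset) fun t ht =>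
      ⟨hFsep t ht, hv t ht⟩
    by_contra hne
    have hw0 : w ≠ 0 := by
      rintro rfl
      exact hne (by rw [hw, mul_zero])
    rw [hw, hFc _ hw0] at ha6d
    omega
  have hc60 : c6 = 0 := by
    obtain ⟨w, hw⟩ : F ∣ c6 := dvd_of_ev hFm (B := D0.roots.toFinset) fun t ht =>
      ⟨hFsep t ht, fun x h0 => by
        rw [hF, ev2_prod, Finset.prod_eq_zero_iff] at h0
        obtain ⟨i, -, hi0⟩ := h0
        have h4 := ev2_dvd (htan i) hi0
        rw [ha60, mul_zero, zero_add, ev2_mul] at h4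
        refine (mul_eq_zero.1 h4).resolve_left ?_
        have := sep_der (hsepi i t ht) hi0
        rwa [← evt_der] at this⟩
    by_contra hne
    have hw0 : w ≠ 0 := by
      rintro rfl
      exact hne (by rw [hw, mul_zero])
    rw [hw, hFc _ hw0] at hc6d
    omega
  rw [ha60, hc60, dt_zero, derivative_zero, add_zero, mul_zero, mul_zero, mul_zero, add_zero,
    add_zero] at h3
  exact hQm.ne_zero h3

end

end Pool.Agent.H941.NC
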