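import Pool.Agent.H941.NC.Div

set_option autoImplicit false
set_option linter.unusedSectionVars false
set_option linter.unusedVariables false

/-! # Bounded continuous fractions on a curve with simple normal crossings are polynomials -/

namespace Pool.Agent.H941.NC

open Polynomial Finset Filter Topology Metric Pool.Agent.Helper748.TP Pool.Agent.H941.TF
  Pool.Agent.H941.SC

theorem ev2_prod {ι : Type} (s : Finset ι) (Φ : ι → ℂ[X][X]) (t x : ℂ) :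
    ev2 (∏ i ∈ s, Φ i) t x = ∏ i ∈ s, ev2 (Φ i) t x := map_prod (evh t x) Φ s

/-- simple normal crossings -/
structure Snc {ι : Type} [Fintype ι] (Φ : ι → ℂ[X][X]) (B : Finset ℂ) : Prop where
  monic : ∀ i, (Φ i).Monic
  smooth : ∀ i t x, ev2 (Φ i) t x = 0 → ev2 (dt (Φ i)) t x = 0 →
    ev2 (derivative (Φ i)) t x ≠ 0
  trans : ∀ i j, i ≠ j → ∀ t x, ev2 (Φ i) t x = 0 → ev2 (Φ j) t x = 0 →
    ev2 (dt (Φ i)) t x * ev2 (derivative (Φ j)) t x -
      ev2 (derivative (Φ i)) t x * ev2 (dt (Φ j)) t x ≠ 0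
  two : ∀ i j l, i ≠ j → l ≠ i → l ≠ j → ∀ t x, ev2 (Φ i) t x = 0 → ev2 (Φ j) t x = 0 →
    ev2 (Φ l) t x ≠ 0
  sep : ∀ t ∉ B, (evt t (∏ i, Φ i)).Separable

/-- a branch of a curve through a point, on which the fraction has a limit -/
def Br (Φ A H : ℂ[X][X]) (t x L : ℂ) : Prop :=
  ∃ (m : ℕ) (a : ℂ → ℂ), 0 < m ∧ AnalyticAt ℂ a 0 ∧ a 0 = x ∧
    (∀ᶠ u in 𝓝[≠] (0 : ℂ), ev2 Φ (t + u ^ m) (a u) = 0) ∧
    (∀ᶠ u in 𝓝[≠] (0 : ℂ), ev2 H (t + u ^ m) (a u) ≠ 0) ∧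
    Tendsto (fun u => ev2 A (t + u ^ m) (a u) / ev2 H (t + u ^ m) (a u)) (𝓝[≠] 0) (𝓝 L)

/-- the fraction near a smooth point -/
theorem Br.div {Φ A H : ℂ[X][X]} {t x L : ℂ} (h : Br Φ A H t x L)
    (hs : ev2 (derivative Φ) t x ≠ 0 ∨ ev2 (dt Φ) t x ≠ 0) :
    ∃ g W, ev2 g t x ≠ 0 ∧ Φ ∣ g * A - H * W ∧ ev2 W t x = ev2 g t x * L := by
  obtain ⟨m, a, hm, ha, hax, hr, hH, hL⟩ := h
  have hT : AnalyticAt ℂ (fun u : ℂ => t + u ^ m) 0 := by fun_prop
  have hT0 : t + (0 : ℂ) ^ m = t := by rw [zero_pow hm.ne', add_zero]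
  obtain ⟨n, hn⟩ : ∃ k : ℕ, analyticOrderAt (fun u => ev2 H (t + u ^ m) (a u)) 0 = k := by
    refine (ENat.ne_top_iff_exists.1 fun h => ?_).imp fun k hk => hk.symm
    rw [analyticOrderAt_eq_top] at h
    obtain ⟨u, h1, h2⟩ := ((h.filter_mono nhdsWithin_le_nhds).and hH).exists
    exact h2 h1
  obtain ⟨g, W, hg, hW⟩ := loc_div hm ha hax hr hs n A H hn ⟨L, hL⟩
  refine ⟨g, W, hg, hW, ?_⟩
  have htd : ∀ P, Tendsto (fun u => ev2 P (t + u ^ m) (a u)) (𝓝[≠] 0) (𝓝 (ev2 P t x)) := by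
    intro P
    have := (an_ev2 P hT ha).continuousAt.tendsto.mono_left (nhdsWithin_le_nhds (s := {0}ᶜ))
    rwa [hT0, hax] at this
  refine tendsto_nhds_unique (htd W) (((htd g).mul hL).congr' ?_)
  filter_upwards [hr, hH] with u h1 h2
  have h3 := ev2_dvd hW h1
  rw [ev2_sub, ev2_mul, ev2_mul] at h3
  field_simp
  linear_combination h3

variable {ι : Type} [Fintype ι] [DecidableEq ι]

theorem prod_erase (Φ : ι → ℂ[X][X]) (i : ι) : ∏ j, Φ j = Φ i * ∏ j ∈ univ.erase i, Φ j :=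
  (Finset.mul_prod_erase univ Φ (mem_univ i)).symm

/-- **Bounded continuous fractions on a curve with simple normal crossings.** -/
theorem Snc.start {Φ : ι → ℂ[X][X]} {B : Finset ℂ} (S : Snc Φ B) {A H : ℂ[X][X]}
    (hloc : ∀ t x, ∃ L, ∀ i, ev2 (Φ i) t x = 0 → Br (Φ i) A H t x L) :
    ∃ W, ∏ i, Φ i ∣ A - H * W := by
  have hmon : (∏ i, Φ i).Monic := monic_prod_of_monic _ _ fun i _ => S.monic i
  set I : Ideal ℂ[X][X] := Ideal.span {∏ i, Φ i, H} with hI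
  set J : Ideal ℂ[X][X] := Submodule.comap (LinearMap.toSpanSingleton ℂ[X][X] ℂ[X][X] A) I with hJd
  have hmem : ∀ c, (∃ W, ∏ i, Φ i ∣ c * A - H * W) ↔ c ∈ J := by
    intro c
    rw [hJd, Submodule.mem_comap, LinearMap.toSpanSingleton_apply, smul_eq_mul, hI,
      Ideal.mem_span_pair]
    constructor
    · rintro ⟨W, w, hw⟩
      exact ⟨w, W, by linear_combination -hw⟩
    · rintro ⟨a, b, hab⟩
      exact ⟨b, a, by rw [← hab]; ring⟩
  by_cases hT : J = ⊤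
  · have h1 : (1 : ℂ[X][X]) ∈ J := by rw [hT]; trivial
    obtain ⟨W, h⟩ := (hmem 1).2 h1
    rw [one_mul] at h
    exact ⟨W, h⟩
  exfalso
  obtain ⟨M, hM, hJM⟩ := Ideal.exists_le_maximal J hT
  obtain ⟨t, x, hpt⟩ := max_pt M hM
  have hcon : ∀ g W, ∏ i, Φ i ∣ g * A - H * W → ev2 g t x = 0 := fun g W h =>
    (hpt g).1 (hJM ((hmem g).1 ⟨W, h⟩))
  have h0 := hcon (∏ i, Φ i) 0 ⟨A, by ring⟩
  rw [ev2_prod, Finset.prod_eq_zero_iff] at h0
  obtain ⟨i, -, hi⟩ := h0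
  obtain ⟨L, hL⟩ := hloc t x
  have hsm : ∀ i, ev2 (Φ i) t x = 0 → ev2 (derivative (Φ i)) t x ≠ 0 ∨ ev2 (dt (Φ i)) t x ≠ 0 := by
    intro i hi
    by_cases h : ev2 (dt (Φ i)) t x = 0
    · exact Or.inl (S.smooth i t x hi h)
    · exact Or.inr h
  obtain ⟨gi, Wi, hgi, hWi, hvi⟩ := (hL i hi).div (hsm i hi)
  by_cases hex : ∃ j, j ≠ i ∧ ev2 (Φ j) t x = 0
  · obtain ⟨j, hji, hj⟩ := hex
    obtain ⟨gj, Wj, hgj, hWj, hvj⟩ := (hL j hj).div (hsm j hj)
    obtain ⟨A1, B1, h1, a1, b1⟩ := dec' (Φ i) t x hi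
    obtain ⟨A2, B2, h2, a2, b2⟩ := dec' (Φ j) t x hj
    obtain ⟨A3, B3, h3, -, -⟩ := dec' (gj * Wi - gi * Wj) t x (by
      rw [ev2_sub, ev2_mul, ev2_mul, hvi, hvj]
      ring)
    set δ := A1 * B2 - B1 * A2 with hδ
    have hδ0 : ev2 δ t x ≠ 0 := by
      have := S.trans i j hji.symm t x hi hj
      rw [a1, b1, a2, b2] at this
      rw [hδ, ev2_sub, ev2_mul, ev2_mul]
      exact this
    set R := ∏ l ∈ (univ.erase i).erase j, Φ l with hR
    have hR0 : ev2 R t x ≠ 0 := by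
      rw [hR, ev2_prod]
      refine Finset.prod_ne_zero_iff.2 fun l hl => ?_
      rw [mem_erase, mem_erase] at hl
      exact S.two i j l hji.symm hl.2.1 hl.1 t x hi hj
    have hkey : δ * (gj * Wi - gi * Wj) = Φ i * (B2 * A3 - A2 * B3) + Φ j * (A1 * B3 - B1 * A3) := by
      rw [h3, h1, h2, hδ]
      ring
    have h5 := hcon (R * (δ * gi * gj)) (R * (δ * gj * Wi - Φ i * (B2 * A3 - A2 * B3)))
      (dvd_of_ev hmon (B := B) fun s hs => ⟨S.sep s hs, fun y hy => by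
        rw [ev2_prod, Finset.prod_eq_zero_iff] at hy
        obtain ⟨l, -, hl⟩ := hy
        have e0 : R * (δ * gi * gj) * A - H * (R * (δ * gj * Wi - Φ i * (B2 * A3 - A2 * B3))) =
          R * (δ * gj * (gi * A - H * Wi) + H * (Φ i * (B2 * A3 - A2 * B3))) := by ring
        have e0' : R * (δ * gi * gj) * A - H * (R * (δ * gj * Wi - Φ i * (B2 * A3 - A2 * B3))) =
          R * (δ * gi * (gj * A - H * Wj) - H * (Φ j * (A1 * B3 - B1 * A3))) := by
          linear_combination (-(H * R)) * hkey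
        by_cases hli : l = i
        · rw [hli] at hl
          rw [e0, ev2_mul, ev2_add, ev2_mul, ev2_mul H, ev2_mul (Φ i), ev2_dvd hWi hl, hl]
          ring
        · by_cases hlj : l = j
          · rw [hlj] at hl
            rw [e0', ev2_mul, ev2_sub, ev2_mul, ev2_mul H, ev2_mul (Φ j), ev2_dvd hWj hl, hl]
            ring
          · have : ev2 R s y = 0 := by
              rw [hR, ev2_prod]
              exact Finset.prod_eq_zero (mem_erase.2 ⟨hlj, mem_erase.2 ⟨hli, mem_univ l⟩⟩) hl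
            rw [e0, ev2_mul, this, zero_mul]⟩)
    rw [ev2_mul, ev2_mul, ev2_mul] at h5
    exact mul_ne_zero hR0 (mul_ne_zero (mul_ne_zero hδ0 hgi) hgj) h5
  · push Not at hex
    set R := ∏ l ∈ univ.erase i, Φ l with hR
    have hR0 : ev2 R t x ≠ 0 := by
      rw [hR, ev2_prod]
      exact Finset.prod_ne_zero_iff.2 fun l hl => hex l (mem_erase.1 hl).1
    have h5 := hcon (R * gi) (R * Wi) (by
      rw [prod_erase Φ i, ← hR]
      obtain ⟨w, hw⟩ := hWi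
      exact ⟨w, by linear_combination R * hw⟩)
    rw [ev2_mul] at h5
    exact mul_ne_zero hR0 hgi h5

end Pool.Agent.H941.NC
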