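import Pool.Agent.H941.NC.Field
import Pool.Agent.H941.NC.Irr

set_option autoImplicit false
set_option linter.unusedSectionVars false
set_option linter.unusedVariables false

/-! # Adding a component which meets the curve in many points -/

namespace Pool.Agent.H941.NC

open Polynomial Finset Filter Topology Metric Pool.Agent.Helper748.TP Pool.Agent.H941.TF
  Pool.Agent.H941.SC

section
variable {N : ℕ} {Q γ hx ht V : ℂ[X][X]} {σ : ℝ} {d D0 : ℂ[X]} {p r q : ℂ[X][X]}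

/-- the logarithmic derivatives at a simple root -/
theorem kapQ (D : Dat N Q γ hx ht σ V d p r q) {M : ℕ} (hγ : γ ∣ Q ^ M) {t x : ℂ}
    (hs : (evt t Q).Separable) (h0 : ev2 Q t x = 0) : ev2 (derivative Q) t x ≠ 0 ∧
    ∃ k : ℕ, 1 ≤ k ∧ ev2 hx t x = k * ev2 (derivative Q) t x ∧
      ev2 ht t x = k * ev2 (dt Q) t x := by
  have hx0 : ev2 (derivative Q) t x ≠ 0 := by
    have := sep_der hs h0
    rwa [← evt_der] at this
  have hpar : ev2 hx t x * ev2 (dt Q) t x = ev2 ht t x * ev2 (derivative Q) t x := by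
    have h1 := congrArg (fun P => ev2 P t x) (integ 1 D.γ0 D.hxE D.htE)
    beta_reduce at h1
    rw [kc_one, one_mul, one_mul, ev2_sub, ev2_sub, ev2_mul, ev2_mul, ev2_mul, ev2_mul, h0] at h1
    linear_combination -h1
  have hGm : (evt t Q).Monic := evt_monic D.monic t
  have e1 : derivative (evt t γ) * evt t Q = evt t γ * evt t hx := by
    rw [← evt_der, ← map_mul, D.hxE, map_mul]
  have hγ0 : evt t γ ≠ 0 := by
    intro h
    obtain ⟨w, hw⟩ := hγ
    have h1 := congrArg (evt t) hw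
    rw [map_mul, h, zero_mul, map_pow] at h1
    exact pow_ne_zero M hGm.ne_zero h1
  have h2 := mult_val hγ0 e1 (c := x) h0
  have h3 : ev2 hx t x = ((evt t γ).rootMultiplicity x : ℂ) * ev2 (derivative Q) t x := by
    rw [ev2, h2, ev2, evt_der]
  refine ⟨hx0, _, ?_, h3, ?_⟩
  · rw [Nat.succ_le_iff, rootMultiplicity_pos hγ0]
    obtain ⟨w, hw⟩ := D.dvd
    rw [hw, map_mul, IsRoot, eval_mul]
    have : (evt t Q).eval x = 0 := h0
    rw [this, zero_mul]
  · refine mul_right_cancel₀ hx0 ?_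
    rw [← hpar, h3]
    ring

theorem hneQ (D : Dat N Q γ hx ht σ V d p r q) {M : ℕ} (hγ : γ ∣ Q ^ M) (hσ : σ < 0) {t x : ℂ}
    (hs : (evt t Q).Separable) (h0 : ev2 Q t x = 0) : ev2 (kc (σ : ℂ) * hx) t x ≠ 0 := by
  obtain ⟨h1, k, hk, h2, -⟩ := kapQ D hγ hs h0
  rw [ev2_mul, ev2_kc, h2]
  have h3 : (σ : ℂ) ≠ 0 := by exact_mod_cast hσ.ne
  have h4 : (k : ℂ) ≠ 0 := Nat.cast_ne_zero.2 (by omega)
  exact mul_ne_zero h3 (mul_ne_zero h4 h1)

theorem relQ (D : Dat N Q γ hx ht σ V d p r q) {M : ℕ} (hγ : γ ∣ Q ^ M) (hσ : σ < 0) {t x : ℂ}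
    (hs : (evt t Q).Separable) (h0 : ev2 Q t x = 0) {a c : ℂ[X][X]}
    (E : EE Q (kc (σ : ℂ) * hx) (kc (σ : ℂ) * ht) a c) :
    ev2 (kc (σ : ℂ) * ht) t x * ev2 a t x + ev2 (kc (σ : ℂ) * hx) t x * ev2 c t x = 0 := by
  obtain ⟨h1, k, hk, e1, e2⟩ := kapQ D hγ hs h0
  have h3 := congrArg (fun P => ev2 P t x) E
  beta_reduce at h3
  rw [ev2_pow, ev2_add, ev2_add, ev2_mul, ev2_mul, ev2_mul, ev2_sub, ev2_sub, ev2_mul, ev2_mul,
    ev2_kc, e1, e2, h0] at h3
  have h4 : (σ * k - 1 : ℂ) ≠ 0 := by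
    intro h
    have h5 : ((σ * k - 1 : ℝ) : ℂ) = 0 := by
      push_cast
      exact h
    have h6 : (σ * k - 1 : ℝ) = 0 := by exact_mod_cast h5
    have h7 : (1 : ℝ) ≤ k := by exact_mod_cast hk
    nlinarith
  have h6 : ev2 (dt Q) t x * ev2 a t x + ev2 (derivative Q) t x * ev2 c t x = 0 := by
    refine (mul_eq_zero.1 ?_).resolve_left h4
    linear_combination -h3
  rw [ev2_mul, ev2_mul, ev2_kc, e1, e2]
  linear_combination (σ * k : ℂ) * h6

theorem tanQ (D : Dat N Q γ hx ht σ V d p r q) {M : ℕ} (hγ : γ ∣ Q ^ M) (hσ : σ < 0) {t x : ℂ}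
    (hs : (evt t Q).Separable) (h0 : ev2 Q t x = 0) {a c : ℂ}
    (h : ev2 (kc (σ : ℂ) * ht) t x * a + ev2 (kc (σ : ℂ) * hx) t x * c = 0) :
    ev2 (dt Q) t x * a + ev2 (derivative Q) t x * c = 0 := by
  obtain ⟨h1, k, hk, e1, e2⟩ := kapQ D hγ hs h0
  rw [ev2_mul, ev2_mul, ev2_kc, e1, e2] at h
  have h3 : (σ : ℂ) ≠ 0 := by exact_mod_cast hσ.ne
  have h4 : (k : ℂ) ≠ 0 := Nat.cast_ne_zero.2 (by omega)
  refine (mul_eq_zero.1 ?_).resolve_left (mul_ne_zero h3 h4)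
  linear_combination h

theorem yyQ (D : Dat N Q γ hx ht σ V d p r q) {p1 : ℂ[X][X]} (hp1 : p = C d * p1) {t : ℂ}
    (x : ℂ) (h0 : d.eval t ≠ 0) : yy σ hx d p t x = ev2 p1 t x / ev2 (kc (σ : ℂ) * hx) t x := by
  rw [yy, hp1, ev2_mul, ev2_C]
  exact mul_div_mul_left _ _ h0

theorem tend3 {Z : ℂ[X][X]} (TZ : TD 3 Z) {X : ℂ → ℂ} (hX : AnalyticAt ℂ X 0) :
    ∃ l, Tendsto (fun u => u ^ (3 : ℤ) * ev2 Z u⁻¹ (X u / u)) (𝓝[≠] 0) (𝓝 l) :=
  TZ.lim (hX.continuousAt.tendsto.mono_left nhdsWithin_le_nhds)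

/-- **A component which meets the curve in many points.** -/
theorem step (D : Dat N Q γ hx ht σ V d p r q) (hN2 : 2 ≤ N) (hσ : σ < 0) {M : ℕ}
    (hγ : γ ∣ Q ^ M) (hD0 : D0 ≠ 0) {α β : ℂ[X][X]} (hαβ : C D0 = α * Q + β * derivative Q)
    {p1 Z : ℂ[X][X]} (hp1 : p = C d * p1) (TZ : TD 3 Z)
    {Γ R A Γi Ri Qi : ℂ[X][X]} {n' n'' : ℕ} (hΓR : Γ * R = Q) (hA : A ∣ R) (hAm : A.Monic)
    (hΓm : Γ.Monic) (hΓirr : Irreducible Γ) (iΓ : Inf Γ Γi n') (iR : Inf R Ri n'')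
    (hnN : n' + n'' = N) (hQi : Γi * Ri = Qi) (hs : (evt 0 Qi).Separable)
    (hAz : ∀ t ∉ D0.roots.toFinset, ∀ x, ev2 A t x = 0 →
      ev2 (p1 - kc (σ : ℂ) * hx * Z) t x = 0)
    (hinf : ∀ x : ℂ → ℂ, AnalyticAt ℂ x 0 → (∀ᶠ u in 𝓝 (0 : ℂ), ev2 Qi u (x u) = 0) →
      ∃ L, Tendsto (fun u => u ^ (3 : ℤ) * (ev2 p1 u⁻¹ (x u / u) /
        ev2 (kc (σ : ℂ) * hx) u⁻¹ (x u / u))) (𝓝[≠] 0) (𝓝 L))
    {τ : Finset ℂ} (hτ : 3 * n' < τ.card)
    (hτ0 : ∀ t ∈ τ, ∃ x, ev2 Γ t x = 0 ∧ ev2 A t x = 0) :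
    ∀ t ∉ D0.roots.toFinset, ∀ x, ev2 Γ t x = 0 →
      ev2 (p1 - kc (σ : ℂ) * hx * Z) t x = 0 := by
  classical
  have hQm := D.monic
  have hQN := D.deg
  have hB : ∀ t ∉ D0.roots.toFinset, D0.eval t ≠ 0 := by
    intro t ht h
    rw [Multiset.mem_toFinset, mem_roots hD0] at ht
    exact ht h
  have hsep : ∀ t ∉ D0.roots.toFinset, (evt t Q).Separable := fun t ht => sep_of_disc hαβ (hB t ht)
  have hΓQ : ∀ t x, ev2 Γ t x = 0 → ev2 Q t x = 0 := by
    intro t x h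
    rw [← hΓR, ev2_mul, h, zero_mul]
  have hAQ : ∀ t x, ev2 A t x = 0 → ev2 R t x = 0 := fun t x h => ev2_dvd hA h
  have hΓRne : ∀ t ∉ D0.roots.toFinset, ∀ x, ev2 Γ t x = 0 → ev2 R t x ≠ 0 := by
    intro t ht x h0
    have h1 := hsep t ht
    rw [← hΓR, map_mul] at h1
    exact sep_ne h1 h0
  set h := kc (σ : ℂ) * hx with hh
  have hhne : ∀ t ∉ D0.roots.toFinset, ∀ x, ev2 Q t x = 0 → ev2 h t x ≠ 0 := fun t ht x h0 =>
    hneQ D hγ hσ (hsep t ht) h0
  set w : ℂ → ℂ → ℂ := fun t x => if ev2 Γ t x = 0 then ev2 p1 t x / ev2 h t x - ev2 Z t x else 1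
    with hw
  have iQ : Inf Q Qi N := by
    have := iΓ.mul iR
    rwa [hΓR, hQi, hnN] at this
  obtain ⟨X', hX, hX0, hXr, PX⟩ := iQ.par hQm hQN (by omega) hs
  have hXroot : ∀ j, ∀ᶠ u in 𝓝 (0 : ℂ), ev2 Qi u (X' j u) = 0 := by
    intro j
    filter_upwards [hXr] with u hu
    rw [ev2, hu]
    exact eval_nod (x := fun j => X' j u) j
  have hs' : (evt 0 (Γi * Ri)).Separable := by rw [hQi]; exact hs
  have hΓd : Γ ∣ Q := ⟨R, hΓR.symm⟩
  have hAd : A ∣ Q := hA.trans ⟨Γ, by rw [← hΓR]; ring⟩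
  set k : Fin N → ℕ := fun j => if ev2 Γi 0 (X' j 0) = 0 then 3 else 0 with hk
  have hksum : ∑ j, k j < τ.card := by
    refine lt_of_le_of_lt ?_ hτ
    rw [hk, ← Finset.sum_filter, Finset.sum_const, smul_eq_mul, mul_comm]
    refine Nat.mul_le_mul_left 3 ?_
    have h1 : (evt 0 Γi).natDegree = n' := by rw [natDegree_evt iΓ.monic, iΓ.deg]
    rw [← h1]
    refine le_trans ?_ ((Multiset.toFinset_card_le _).trans (card_roots' (evt 0 Γi)))
    refine Finset.card_le_card_of_injOn (fun j => X' j 0) ?_ fun i _ j _ hij => hX0 hij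
    intro j hj
    rw [Finset.mem_coe, Finset.mem_filter] at hj
    rw [Finset.mem_coe, Multiset.mem_toFinset, mem_roots (evt_monic iΓ.monic 0).ne_zero]
    exact hj.2
  have hcount := count (w := w) hQm hQN hαβ hB (fun t ht a ha h0 => by
    have hid : HasDerivAt (fun u : ℂ => u) 1 t := hasDerivAt_id' t
    have hd : ∀ P : ℂ[X][X], DifferentiableAt ℂ (fun u => ev2 P u (a u)) t := fun P =>
      (hasDerivAt_ev2 P hid ha.hasDerivAt).differentiableAt
    by_cases h1 : ev2 Γ t (a t) = 0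
    · have h2 := hΓRne t ht _ h1
      have h3 : ∀ᶠ s in 𝓝 t, ev2 R s (a s) ≠ 0 := (hd R).continuousAt.eventually_ne h2
      have h4 : (fun s => w s (a s)) =ᶠ[𝓝 t] fun s => ev2 p1 s (a s) / ev2 h s (a s) -
          ev2 Z s (a s) := by
        filter_upwards [h0, h3] with s e1 e2
        rw [← hΓR, ev2_mul] at e1
        simp only [hw, if_pos ((mul_eq_zero.1 e1).resolve_right e2)]
      exact (((hd p1).fun_div (hd h) (hhne t ht _ (hΓQ _ _ h1))).fun_sub
        (hd Z)).congr_of_eventuallyEq h4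
    · have h3 : ∀ᶠ s in 𝓝 t, ev2 Γ s (a s) ≠ 0 := (hd Γ).continuousAt.eventually_ne h1
      have h4 : (fun s => w s (a s)) =ᶠ[𝓝 t] fun _ => 1 := by
        filter_upwards [h3] with s e1
        simp only [hw, if_neg e1]
      exact (differentiableAt_const _).congr_of_eventuallyEq h4)
    (Z := τ) (fun t ht => by
      by_contra hcon
      obtain ⟨x, h1, h2⟩ := hτ0 t ht
      exact hΓRne t hcon x h1 (hAQ t x h2))
    (fun b hb => by
      obtain ⟨m, a, L, hm, ha, P, hd, hL, hLL⟩ := fin_pt2 D hN2 hσ hγ hD0 hαβ b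
      have hT : AnalyticAt ℂ (fun u : ℂ => b + u ^ m) 0 := by fun_prop
      have hT0 : b + (0 : ℂ) ^ m = b := by rw [zero_pow hm.ne', add_zero]
      have hBu := ev_notin D0.roots.toFinset b hm
      refine ⟨m, a, fun j => if (∀ᶠ u in 𝓝[≠] (0 : ℂ), ev2 Γ (b + u ^ m) (a j u) = 0) then
        L j - ev2 Z b (a j 0) else 1, hm, P, fun j => ?_, fun hbτ => ?_⟩
      · beta_reduce
        rcases fam_ind (Γ := Γ) P j with h1 | h1
        · rw [if_pos h1]
          refine ((hL j).sub (tendP Z b hm (ha j))).congr' ?_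
          filter_upwards [h1, hd] with u e1 e2
          rw [yyQ D hp1 _ e2]
          simp only [hw, if_pos e1]
          rfl
        · rw [if_neg (fun h2 => by
            obtain ⟨u, h3, h4⟩ := (h1.and h2).exists
            exact h3 h4)]
          refine tendsto_const_nhds.congr' ?_
          filter_upwards [h1] with u e1
          simp only [hw, if_neg e1]
      · obtain ⟨x, h1, h2⟩ := hτ0 b hbτ
        obtain ⟨j, hj0, hj⟩ := fam (Γ := Γ) P hT ha hΓm hΓd (ξ := x) (by rw [hT0]; exact h1)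
        obtain ⟨i, hi0, hi⟩ := fam (Γ := A) P hT ha hAm hAd (ξ := x) (by rw [hT0]; exact h2)
        refine ⟨j, ?_⟩
        have e1 : L j = L i := hLL j i (by rw [hj0, hi0])
        have e2 : L i = ev2 Z b (a i 0) := by
          refine tendsto_nhds_unique (hL i) ((tendP Z b hm (ha i)).congr' ?_)
          filter_upwards [hi, hd, hBu] with u k1 k2 k3
          have k4 := hAz _ k3 _ k1
          have k5 := hhne _ k3 _ (ev2_dvd hAd k1)
          rw [ev2_sub, ev2_mul h] at k4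
          rw [yyQ D hp1 _ k2, eq_div_iff k5]
          linear_combination -k4
        beta_reduce
        rw [if_pos hj, e1, e2, hi0, hj0, sub_self])
    hksum ⟨X', PX, fun j => by
      rcases inf_dich iΓ iR hs' (hX j) (by rw [hQi]; exact hXroot j) with ⟨h1, h2, h3⟩ | h1
      · obtain ⟨L, hL⟩ := hinf (X' j) (hX j) (hXroot j)
        obtain ⟨l, hl⟩ := tend3 TZ (hX j)
        refine ⟨_, (hL.sub hl).congr' ?_⟩
        filter_upwards [h1] with u e1
        simp only [hw, hk, if_pos e1, if_pos h2]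
        rw [show (3 : ℤ) = ((3 : ℕ) : ℤ) from rfl, zpow_natCast]
        ring
      · refine ⟨_, ((((continuous_pow (k j)).tendsto (0 : ℂ)).mono_left
          (nhdsWithin_le_nhds (s := {0}ᶜ))).congr' ?_)⟩
        filter_upwards [h1] with u e1
        simp only [hw, if_neg e1, mul_one]⟩
  have hdv : Γ ∣ p1 - h * Z := by
    refine irr_dvd hΓm hΓirr (B := D0.roots.toFinset) fun t ht => ?_
    obtain ⟨x, hx1, hx2⟩ := hcount t ht
    have h1 : ev2 Γ t x = 0 := by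
      by_contra hcon
      simp only [hw, if_neg hcon] at hx2
      exact one_ne_zero hx2
    refine ⟨x, h1, ?_⟩
    simp only [hw, if_pos h1] at hx2
    have h2 := hhne t ht x hx1
    rw [ev2_sub, ev2_mul]
    rw [sub_eq_zero, div_eq_iff h2] at hx2
    linear_combination hx2
  exact fun t _ x h0 => ev2_dvd hdv h0

end

end Pool.Agent.H941.NC
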