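import Pool.Agent.H941.NC.Main

set_option autoImplicit false
set_option linter.unusedSectionVars false
set_option linter.unusedVariables false

/-! # There is no primitive: assembly -/

namespace Pool.Agent.H941.NC

open Polynomial Finset Filter Topology Metric Pool.Agent.Helper748.TP Pool.Agent.H941.TF
  Pool.Agent.H941.SC

section
variable {ι : Type} [Fintype ι] [DecidableEq ι] {Φ : ι → ℂ[X][X]} {k : ℕ}
  {Γ Γi : Fin k → ℂ[X][X]} {nn : Fin k → ℕ}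
  {Φi hxQ htQ γ' V p r q : ℂ[X][X]} {D0 d : ℂ[X]} {σ : ℝ} {e n : ℕ}

/-- **There is no primitive.** -/
theorem main (S : Snc Φ D0.roots.toFinset) (he : 4 ≤ e) (hσ : σ < 0) (hD0 : D0 ≠ 0)
    {α β : ℂ[X][X]}
    (hαβ : C D0 = α * ((∏ i, Φ i) * ∏ j, Γ j) + β * derivative ((∏ i, Φ i) * ∏ j, Γ j))
    (hFd : (∏ i, Φ i).natDegree = e)
    (TQ : TD ((e + n : ℕ) : ℤ) ((∏ i, Φ i) * ∏ j, Γ j))
    (iΦ : Inf (∏ i, Φ i) Φi e) (iΓ : ∀ j, Inf (Γ j) (Γi j) (nn j)) (hn : ∑ j, nn j = n)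
    (hsi : (evt 0 (Φi * ∏ j, Γi j)).Separable)
    (hΓm : ∀ j, (Γ j).Monic) (hΓirr : ∀ j, Irreducible (Γ j))
    (τ : Fin k → Finset ℂ) (hτ : ∀ j, 3 * nn j < (τ j).card)
    (hτ0 : ∀ j, ∀ t ∈ τ j, ∃ x, ev2 (Γ j) t x = 0 ∧
      ev2 ((∏ i, Φ i) * ∏ l ∈ univ.filter (· < j), Γ l) t x = 0)
    (D : Dat (e + n) ((∏ i, Φ i) * ∏ j, Γ j) γ' hxQ htQ σ V d p r q)
    (hV : V = VV (e + n) ((∏ i, Φ i) * ∏ j, Γ j) (kc (σ : ℂ) * hxQ)) {M : ℕ}
    (hγ : γ' ∣ ((∏ i, Φ i) * ∏ j, Γ j) ^ M)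
    {δ : ℕ} (hlc : hxQ.coeff (e + n - 1) = C (δ : ℂ)) (hsum : σ * δ = -3) : False := by
  classical
  have hN2 : 2 ≤ e + n := by omega
  have hhc : (kc (σ : ℂ) * hxQ).coeff (e + n - 1) = -3 := by
    rw [kc, coeff_C_mul, hlc, ← C_mul]
    have h1 : (σ : ℂ) * δ = -3 := by
      have : ((σ * δ : ℝ) : ℂ) = ((-3 : ℝ) : ℂ) := by rw [hsum]
      push_cast at this
      exact this
    rw [h1, C_neg, map_ofNat (C : ℂ →+* ℂ[X]) 3]
  have hhd : (kc (σ : ℂ) * hxQ).natDegree ≤ e + n - 1 := (natDegree_C_mul_le _ _).trans D.hxd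
  have hQm := D.monic
  have hQN := D.deg
  have hB : ∀ t ∉ D0.roots.toFinset, D0.eval t ≠ 0 := by
    intro t ht h
    rw [Multiset.mem_toFinset, mem_roots hD0] at ht
    exact ht h
  have hsep : ∀ t ∉ D0.roots.toFinset, (evt t ((∏ i, Φ i) * ∏ j, Γ j)).Separable := fun t ht =>
    sep_of_disc hαβ (hB t ht)
  have hhne : ∀ t ∉ D0.roots.toFinset, ∀ x, ev2 ((∏ i, Φ i) * ∏ j, Γ j) t x = 0 →
      ev2 (kc (σ : ℂ) * hxQ) t x ≠ 0 := fun t ht x h0 => hneQ D hγ hσ (hsep t ht) h0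
  have iΨ : Inf (∏ j, Γ j) (∏ j, Γi j) n := by
    have := Inf_prod univ iΓ
    rwa [hn] at this
  -- infinity
  have iQ : Inf ((∏ i, Φ i) * ∏ j, Γ j) (Φi * ∏ j, Γi j) (e + n) := iΦ.mul iΨ
  obtain ⟨X', hX, hX0, hXr, P⟩ := iQ.par hQm hQN (by omega) hsi
  have hdinf : ∀ᶠ u in 𝓝[≠] (0 : ℂ), d.eval u⁻¹ ≠ 0 := by
    filter_upwards [ev_notin' d.roots.toFinset] with u hu h
    apply hu
    rw [Multiset.mem_toFinset, mem_roots D.d0]
    exact h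
  obtain ⟨b, hb, hbe, -, -⟩ := D.system hN2 hσ hγ P hdinf
  have TH : TD (((e + n : ℕ) : ℤ) - 1) (kc (σ : ℂ) * hxQ) := TDh iQ (by omega) hX hX0 hhd hbe
  have TV : TD 1 V := by
    rw [hV]
    exact TD_VV hN2 TQ TH
  have hyi := lim_inf' D hN2 hσ hγ P hX hX0 hdinf hlc hsum TV
  obtain ⟨p1, ρ, hp1, hp1d, hρd, hE⟩ := poly D hN2 hσ hγ hD0 hαβ hhc
    (by rw [hV]; exact natDegree_VV _ _ _)
  have hinf : ∀ x : ℂ → ℂ, AnalyticAt ℂ x 0 →
      (∀ᶠ u in 𝓝 (0 : ℂ), ev2 (Φi * ∏ j, Γi j) u (x u) = 0) →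
      (∃ L, Tendsto (fun u => u ^ (3 : ℤ) * (ev2 p1 u⁻¹ (x u / u) /
        ev2 (kc (σ : ℂ) * hxQ) u⁻¹ (x u / u))) (𝓝[≠] 0) (𝓝 L)) ∧
      ∀ᶠ u in 𝓝[≠] (0 : ℂ), ev2 (kc (σ : ℂ) * hxQ) u⁻¹ (x u / u) ≠ 0 := by
    intro x hxa hx0
    obtain ⟨j, hj⟩ := root_uniq hX hX0 hXr hxa.continuousAt hx0
    have hj' := hj.filter_mono (nhdsWithin_le_nhds (s := {0}ᶜ))
    obtain ⟨L, hL⟩ := hyi j
    refine ⟨⟨L, hL.congr' ?_⟩, ?_⟩
    · filter_upwards [hj', hdinf] with u h1 h2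
      rw [yyQ D hp1 _ h2, h1]
      rfl
    · filter_upwards [hj', hbe, P.root, P.inj] with u h1 h2 h3 h4
      rw [h1, h2 j]
      have h5 := der_nod_ne h4 j
      have h6 : ev2 (derivative ((∏ i, Φ i) * ∏ j, Γ j)) u⁻¹ (X' j u / u) ≠ 0 := by
        rw [ev2, evt_der, h3]
        exact h5
      exact mul_ne_zero (by exact_mod_cast (hb j).ne) h6
  have hXroot : ∀ j, ∀ᶠ u in 𝓝 (0 : ℂ), ev2 (Φi * ∏ j, Γi j) u (X' j u) = 0 := by
    intro j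
    filter_upwards [hXr] with u hu
    rw [ev2, hu]
    exact eval_nod (x := fun j => X' j u) j
  have TP : TD (((e + n : ℕ) : ℤ) + 2) p1 := by
    refine TD_of_lim (fun j => (hX j).continuousAt.tendsto.mono_left nhdsWithin_le_nhds) hX0
      (lt_of_le' (by omega) (hp1d.trans (by omega))) fun j => ?_
    obtain ⟨⟨L, hL⟩, hne⟩ := hinf (X' j) (hX j) (hXroot j)
    obtain ⟨l, hl⟩ := TH.lim ((hX j).continuousAt.tendsto.mono_left (nhdsWithin_le_nhds (s := {0}ᶜ)))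
    refine ⟨_, (hL.mul hl).congr' ?_⟩
    filter_upwards [hne, ev_ne] with u h1 h2
    rw [show (((e + n : ℕ) : ℤ) + 2) = 3 + (((e + n : ℕ) : ℤ) - 1) by ring, zpow_add₀ h2]
    have h13 : ∀ A B' w1 w2 : ℂ, B' ≠ 0 → w1 * (A / B') * (w2 * B') = w1 * w2 * A := by
      intro A B' w1 w2 i1
      field_simp
    exact h13 _ _ _ _ h1
  have hFm : (∏ i, Φ i).Monic := monic_prod_of_monic _ _ fun i _ => S.monic i
  have hiQ : ∀ i, Φ i ∣ (∏ i, Φ i) * ∏ j, Γ j := fun i =>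
    (Finset.dvd_prod_of_mem Φ (mem_univ i)).trans ⟨_, rfl⟩
  -- the residues on the normal crossings
  obtain ⟨W0, hW0⟩ := S.start (A := p1) (H := kc (σ : ℂ) * hxQ) (fun t x => by
    obtain ⟨m, a, L, hm, ha, Pf, hd, hL, hLL⟩ := fin_pt2 D hN2 hσ hγ hD0 hαβ t
    have hT : AnalyticAt ℂ (fun u : ℂ => t + u ^ m) 0 := by fun_prop
    have hT0 : t + (0 : ℂ) ^ m = t := by rw [zero_pow hm.ne', add_zero]
    have hBu := ev_notin D0.roots.toFinset t hm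
    by_cases hex : ∃ j, a j 0 = x
    · obtain ⟨j, hj⟩ := hex
      refine ⟨L j, fun i hi => ?_⟩
      obtain ⟨j', hj', hj0⟩ := fam (Γ := Φ i) Pf hT ha (S.monic i) (hiQ i) (ξ := x)
        (by rw [hT0]; exact hi)
      refine ⟨m, a j', hm, ha j', hj', hj0, ?_, ?_⟩
      · filter_upwards [hj0, hBu] with u e1 e2
        exact hhne _ e2 _ (ev2_dvd (hiQ i) e1)
      · rw [← hLL j' j (by rw [hj', hj])]
        refine (hL j').congr' ?_
        filter_upwards [hd] with u hu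
        exact yyQ D hp1 _ hu
    · refine ⟨0, fun i hi => ?_⟩
      obtain ⟨j', hj', -⟩ := fam (Γ := Φ i) Pf hT ha (S.monic i) (hiQ i) (ξ := x)
        (by rw [hT0]; exact hi)
      exact absurd ⟨j', hj'⟩ hex)
  have hZF : ∏ i, Φ i ∣ p1 - kc (σ : ℂ) * hxQ * (W0 %ₘ ∏ i, Φ i) := by
    obtain ⟨w, hw⟩ := hW0
    refine ⟨w + kc (σ : ℂ) * hxQ * (W0 /ₘ ∏ i, Φ i), ?_⟩
    have h3 := modByMonic_add_div W0 (∏ i, Φ i)
    linear_combination hw - kc (σ : ℂ) * hxQ * h3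
  have hZd : (W0 %ₘ ∏ i, Φ i).degree < (e : WithBot ℕ) := by
    have := degree_modByMonic_lt W0 hFm
    rwa [degree_eq_natDegree hFm.ne_zero, hFd] at this
  set Z := W0 %ₘ ∏ i, Φ i with hZ
  clear_value Z
  have hsΦ : (evt 0 Φi).Separable := by
    have h := hsi
    rw [map_mul] at h
    exact h.of_mul_left
  obtain ⟨XH, hXH, hXH0, hXHr, PH⟩ := iΦ.par hFm hFd (by omega) hsΦ
  have hXHroot : ∀ j, ∀ᶠ u in 𝓝 (0 : ℂ), ev2 Φi u (XH j u) = 0 := by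
    intro j
    filter_upwards [hXHr] with u hu
    rw [ev2, hu]
    exact eval_nod (x := fun j => XH j u) j
  have hXHroot' : ∀ j, ∀ᶠ u in 𝓝 (0 : ℂ), ev2 (Φi * ∏ j, Γi j) u (XH j u) = 0 := by
    intro j
    filter_upwards [hXHroot j] with u hu
    rw [ev2_mul, hu, zero_mul]
  have hXHΦ : ∀ j, ∀ᶠ u in 𝓝[≠] (0 : ℂ), ev2 (∏ i, Φ i) u⁻¹ (XH j u / u) = 0 := by
    intro j
    filter_upwards [(hXHroot j).filter_mono nhdsWithin_le_nhds, ev_ne] with u h1 h2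
    rw [iΦ.rel u _ h2] at h1
    exact (mul_eq_zero.1 h1).resolve_left (pow_ne_zero _ h2)
  have TZ : TD 3 Z := by
    refine TD_of_lim (fun j => (hXH j).continuousAt.tendsto.mono_left nhdsWithin_le_nhds) hXH0
      hZd fun j => ?_
    obtain ⟨⟨L, hL⟩, hne⟩ := hinf (XH j) (hXH j) (hXHroot' j)
    refine ⟨L, hL.congr' ?_⟩
    filter_upwards [hne, hXHΦ j] with u h1 h2
    have h3 := ev2_dvd hZF h2
    rw [ev2_sub, ev2_mul (kc (σ : ℂ) * hxQ)] at h3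
    congr 1
    rw [div_eq_iff h1]
    linear_combination h3
  -- the chain
  have hch : ∀ j : Fin k, ∀ t ∉ D0.roots.toFinset, ∀ x, ev2 (Γ j) t x = 0 →
      ev2 (p1 - kc (σ : ℂ) * hxQ * Z) t x = 0 := by
    intro j
    refine WellFounded.induction (C := fun j : Fin k => ∀ t ∉ D0.roots.toFinset, ∀ x,
      ev2 (Γ j) t x = 0 → ev2 (p1 - kc (σ : ℂ) * hxQ * Z) t x = 0) (wellFounded_lt) j ?_
    intro j ih
    refine step D hN2 hσ hγ hD0 hαβ hp1 TZ (Γ := Γ j)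
      (R := (∏ i, Φ i) * ∏ l ∈ univ.erase j, Γ l)
      (A := (∏ i, Φ i) * ∏ l ∈ univ.filter (· < j), Γ l) (Γi := Γi j)
      (Ri := Φi * ∏ l ∈ univ.erase j, Γi l) (Qi := Φi * ∏ j, Γi j) (n' := nn j)
      (n'' := e + ∑ l ∈ univ.erase j, nn l) ?_ ?_ ?_ (hΓm j) (hΓirr j) (iΓ j)
      (iΦ.mul (Inf_prod _ iΓ)) ?_ ?_ hsi ?_ (fun x h1 h2 => (hinf x h1 h2).1) (hτ j) (hτ0 j)
    · rw [← Finset.mul_prod_erase univ Γ (mem_univ j)]
      ring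
    · refine mul_dvd_mul_left _ (Finset.prod_dvd_prod_of_subset _ _ _ fun l hl => ?_)
      rw [mem_filter] at hl
      exact mem_erase.2 ⟨hl.2.ne, mem_univ l⟩
    · exact hFm.mul (monic_prod_of_monic _ _ fun i _ => hΓm i)
    · rw [← hn, ← Finset.add_sum_erase univ nn (mem_univ j)]
      ring
    · rw [← Finset.mul_prod_erase univ Γi (mem_univ j)]
      ring
    · intro t ht x h0
      rw [ev2_mul] at h0
      rcases mul_eq_zero.1 h0 with h1 | h1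
      · exact ev2_dvd hZF h1
      · rw [ev2_prod, Finset.prod_eq_zero_iff] at h1
        obtain ⟨l, hl, hl0⟩ := h1
        rw [mem_filter] at hl
        exact ih l hl.2 t ht x hl0
  have hρ1 : ρ.natDegree ≤ e + n + 1 := by
    have hV1 : V.natDegree ≤ 1 := by rw [hV]; exact natDegree_VV _ _ _
    have h3 : ρ = (ρ - V * ((∏ i, Φ i) * ∏ j, Γ j)) + V * ((∏ i, Φ i) * ∏ j, Γ j) := by ring
    rw [h3]
    refine (natDegree_add_le _ _).trans (max_le (by omega) (natDegree_mul_le.trans ?_))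
    omega
  refine endgame S he hσ hD0 hαβ hFd TQ iΦ iΨ hsi D hγ hhc TH hp1d hρ1 TP TZ hE ?_
  intro t ht x h0
  rw [ev2_mul] at h0
  rcases mul_eq_zero.1 h0 with h1 | h1
  · exact ev2_dvd hZF h1
  · rw [ev2_prod, Finset.prod_eq_zero_iff] at h1
    obtain ⟨l, -, hl0⟩ := h1
    exact hch l t ht x hl0

end

end Pool.Agent.H941.NC
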